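import Pool.Agent.Lib.MP_be561b_pr.DriftMain

/-! Stationary functionals in the frame of the front: densities and entropy production. -/

namespace Pool.Agent.FA1f.Fr

open Function Finset Real Filter Topology

/-- A stationary functional for the dynamics seen from the front, with its densities. -/
structure Stat (q : ℝ) (ν : ((ℕ → Bool) → ℝ) →ₗ[ℝ] ℝ) (G : ℕ → (ℕ → Bool) → ℝ) : Prop where
  dep : ∀ n, Dep n (G n)
  nn : ∀ n, 0 ≤ G n
  rep : ∀ n F, Dep n F → ν F = ExN q n (G n * F)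
  one : ν 1 = 1
  inv : ∀ N φ, Dep N φ → ν (LF q N φ) = 0

variable {q : ℝ} {ν : ((ℕ → Bool) → ℝ) →ₗ[ℝ] ℝ} {G : ℕ → (ℕ → Bool) → ℝ}

lemma ExN_level {L n : ℕ} {F : (ℕ → Bool) → ℝ} (hF : Dep L F) (h : L ≤ n) :
    ExN q n F = ExN q L F := by
  induction n, h using Nat.le_induction with
  | base => rfl
  | succ n h ih => rw [ExN_dep (hF.mono h), ih]

lemma Dep_sum {L : ℕ} {ι : Type*} {s : Finset ι} {F : ι → (ℕ → Bool) → ℝ}
    (h : ∀ i ∈ s, Dep L (F i)) : Dep L (∑ i ∈ s, F i) := fun σ σ' hs => by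
  simp only [Finset.sum_apply]
  exact sum_congr rfl fun i hi => h i hi σ σ' hs

lemma Stat.mono (h0 : 0 < q) (h1 : q < 1) (S : Stat q ν G) {n : ℕ} {f g : (ℕ → Bool) → ℝ}
    (hf : Dep n f) (hg : Dep n g) (h : ∀ σ, f σ ≤ g σ) : ν f ≤ ν g := by
  rw [S.rep n f hf, S.rep n g hg]
  exact (ExN_pos h0 h1).mono fun σ => mul_le_mul_of_nonneg_left (h σ) (S.nn n σ)

lemma Stat.nonneg (h0 : 0 < q) (h1 : q < 1) (S : Stat q ν G) {n : ℕ} {f : (ℕ → Bool) → ℝ}
    (hf : Dep n f) (h : ∀ σ, 0 ≤ f σ) : 0 ≤ ν f := by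
  rw [S.rep n f hf]
  exact ExN_pos h0 h1 _ fun σ => mul_nonneg (S.nn n σ) (h σ)

lemma Stat.le_const (h0 : 0 < q) (h1 : q < 1) (S : Stat q ν G) {n : ℕ} {f : (ℕ → Bool) → ℝ}
    (hf : Dep n f) {c : ℝ} (h : ∀ σ, f σ ≤ c) : ν f ≤ c := by
  have := S.mono h0 h1 hf ((Dep_one n).smul c) (fun σ => by simpa using h σ)
  rwa [lin_smul, S.one, mul_one] at this

lemma Stat.hone (S : Stat q ν G) (n : ℕ) : ExN q n (G n) = 1 := by
  have := S.rep n 1 (Dep_one n)
  rw [mul_one, S.one] at this; exact this.symm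

lemma Stat.gL_eq (h0 : 0 < q) (h1 : q < 1) (S : Stat q ν G) {L n : ℕ} (h : L ≤ n) :
    gL q n (G n) L = G L := by
  have d : Dep L (gL q n (G n) L - G L) := (gL_dep (S.dep n) h).sub (S.dep L)
  set a := gL q n (G n) L - G L with ha
  have e : ExN q n (a * a) = 0 := by
    conv_lhs => rw [ha, sub_mul, ← ha]
    rw [map_sub, ← ExN_gL _ d, ← S.rep n a (d.mono h), ExN_level ((S.dep L).mul d) h,
      ← S.rep L a d, sub_self]
  ext σ
  have := gL_upper h0 h1 ((d.mul d).mono h) (fun τ => mul_self_nonneg (a τ)) σ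
  rw [e] at this
  have p := pow_pos (ps_pos h0 h1) n
  have : a σ * a σ ≤ 0 := by
    by_contra hc
    push Not at hc
    exact absurd (mul_pos p hc) (not_lt.2 this)
  have : a σ = 0 := mul_self_eq_zero.1 (le_antisymm this (mul_self_nonneg _))
  simpa [ha, sub_eq_zero] using this

lemma Stat.succ (h0 : 0 < q) (h1 : q < 1) (S : Stat q ν G) (L : ℕ) : G L = E q L (G (L + 1)) := by
  rw [← S.gL_eq h0 h1 (Nat.le_succ L), gL_succ _ (Nat.lt_succ_self L), gL_top]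

open Classical in
/-- Indicator of a cylinder. -/
noncomputable def cyl (n : ℕ) (σ τ : ℕ → Bool) : ℝ := if ∀ j < n, τ j = σ j then 1 else 0

lemma Dep_cyl (n : ℕ) (σ : ℕ → Bool) : Dep n (cyl n σ) := fun τ τ' hs => by
  classical
  exact if_congr (forall₂_congr fun j hj => by rw [hs j hj]) rfl rfl

lemma cyl_nonneg (n : ℕ) (σ τ : ℕ → Bool) : 0 ≤ cyl n σ τ := by
  unfold cyl; split_ifs <;> norm_num

lemma LF_lower (h0 : 0 < q) (h1 : q < 1) {φ : (ℕ → Bool) → ℝ} (hφ : 0 ≤ φ) (n : ℕ)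
    (σ : ℕ → Bool) :
    E q 0 φ σ + q * φ (cns false σ) - ((n : ℝ) + 3) * φ σ ≤ LF q (n + 1) φ σ := by
  have a : ∀ j ∈ range n, -φ σ ≤ cF (j + 1) σ * (E q (j + 1) φ σ - φ σ) := fun j _ => by
    have a1 : 0 ≤ E q (j + 1) φ σ := E_nonneg h0 h1 _ hφ σ
    have a2 : 0 ≤ φ σ := hφ σ
    nlinarith [cF_nonneg (j + 1) σ, cF_le_one (j + 1) σ]
  have b := card_nsmul_le_sum _ _ _ a
  rw [card_range, nsmul_eq_mul] at b
  have a2 : 0 ≤ φ σ := hφ σ
  have a3 : 0 ≤ φ (shf σ) := hφ _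
  have z0 := zr_nonneg 0 σ
  have z1 := zr_le_one 0 σ
  have hp : 0 < 1 - q := by linarith
  have c : -φ σ ≤ (1 - q) * (zr 0 σ * (φ (shf σ) - φ σ)) := by
    nlinarith [mul_nonneg (mul_nonneg hp.le z0) a3, mul_nonneg h0.le a2,
      mul_nonneg (mul_nonneg hp.le (sub_nonneg.2 z1)) a2]
  simp only [LF, Pi.add_apply, Finset.sum_apply, Pi.mul_apply, Pi.sub_apply, Pi.smul_apply,
    smul_eq_mul, sum_range_succ', cF_zero, Pi.one_apply]
  nlinarith [mul_nonneg hp.le a2]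

lemma Stat.flux (h0 : 0 < q) (h1 : q < 1) (S : Stat q ν G) {n : ℕ} {φ : (ℕ → Bool) → ℝ}
    (hφ : 0 ≤ φ) (d : Dep (n + 1) φ) :
    ν (E q 0 φ) + q * ν (fun σ => φ (cns false σ)) ≤ ((n : ℝ) + 3) * ν φ := by
  have d2 := d.mono (Nat.le_succ _)
  have := S.mono h0 h1 (n := n + 2)
    (f := E q 0 φ + q • (fun σ => φ (cns false σ)) - ((n : ℝ) + 3) • φ)
    (((d2.E q 0).add (((d.cns false).mono (by omega)).smul q)).sub (d2.smul _)) (Dep_LF d)
    fun σ => LF_lower h0 h1 hφ n σ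
  rw [S.inv _ _ d, map_sub, map_add, lin_smul, lin_smul] at this
  linarith

lemma Stat.cyl_pos (h0 : 0 < q) (h1 : q < 1) (S : Stat q ν G) (n : ℕ) :
    ∀ σ, 0 < ν (cyl n σ) := by
  induction n with
  | zero =>
    intro σ
    have : cyl 0 σ = 1 := by ext τ; simp [cyl]
    rw [this, S.one]; exact one_pos
  | succ n ih =>
    have n3 : (0 : ℝ) < (n : ℝ) + 3 := by positivity
    have A : ∀ σ : ℕ → Bool, σ 0 = false → 0 < ν (cyl (n + 1) σ) := fun σ hσ => by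
      have f := S.flux h0 h1 (cyl_nonneg (n + 1) σ) (Dep_cyl _ σ)
      have e : (fun τ => cyl (n + 1) σ (cns false τ)) = cyl n (shf σ) := by
        classical
        ext τ
        refine if_congr ⟨fun h j hj => h (j + 1) (by omega), fun h j hj => ?_⟩ rfl rfl
        cases j with
        | zero => exact hσ.symm
        | succ j => exact h j (by omega)
      rw [e] at f
      have a := S.nonneg h0 h1 ((Dep_cyl (n + 1) σ).E q 0)
        (E_nonneg h0 h1 0 (cyl_nonneg (n + 1) σ))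
      have := mul_pos h0 (ih (shf σ))
      exact (mul_pos_iff_of_pos_left n3).1 (by linarith)
    intro σ
    have f := S.flux h0 h1 (cyl_nonneg (n + 1) σ) (Dep_cyl _ σ)
    have a := S.nonneg h0 h1 ((Dep_cyl (n + 1) σ).cns false) fun τ => cyl_nonneg _ _ _
    have b := S.mono h0 h1 (f := ps q • cyl (n + 1) (update σ 0 false))
      ((Dep_cyl (n + 1) _).smul _) ((Dep_cyl (n + 1) σ).E q 0) fun τ => by
        rw [← Ind_E q 0 _ τ (σ 0)]
        refine le_trans ?_ (E_lower h0 h1 0 (cyl_nonneg (n + 1) σ) _)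
        refine mul_le_mul_of_nonneg_left ?_ (ps_pos h0 h1).le
        unfold cyl
        split_ifs with c1 c2
        · exact le_rfl
        · refine absurd (fun j hj => ?_) c2
          by_cases e : j = 0
          · subst e; simp
          · rw [update_of_ne e, c1 j hj, update_of_ne e]
        · norm_num
        · exact le_rfl
    rw [lin_smul] at b
    have := mul_pos (ps_pos h0 h1) (A (update σ 0 false) (by simp))
    exact (mul_pos_iff_of_pos_left n3).1 (by nlinarith [mul_nonneg h0.le a])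

lemma Stat.pos (h0 : 0 < q) (h1 : q < 1) (S : Stat q ν G) (n : ℕ) (σ : ℕ → Bool) : 0 < G n σ := by
  have a := S.cyl_pos h0 h1 n σ
  have e : G n * cyl n σ = G n σ • cyl n σ := by
    ext τ
    simp only [Pi.mul_apply, Pi.smul_apply, smul_eq_mul, cyl]
    split_ifs with c
    · rw [S.dep n τ σ c]
    · simp
  rw [S.rep n _ (Dep_cyl n σ), e, lin_smul] at a
  refine lt_of_le_of_ne (S.nn n σ) fun h => ?_
  rw [← h, zero_mul] at a
  exact lt_irrefl _ a

lemma top_log (h0 : 0 < q) (h1 : q < 1) {l : ℕ} {g : (ℕ → Bool) → ℝ} (hd : Dep (l + 1 + 1) g)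
    (hg : ∀ σ, 0 < g σ) (hone : ExN q (l + 1 + 1) g = 1)
    (hs : 0 ≤ ExN q (l + 1 + 1) (g * LF q (l + 1) (fun σ => log (gL q (l + 1 + 1) g (l + 1) σ)))) :
    q * (1 - q) * ∑ j ∈ range l, ExN q (l + 1 + 1) (cF j *
      (grad j (fun σ => log (gL q (l + 1 + 1) g (l + 1) σ)) * grad j (gL q (l + 1 + 1) g (l + 1)))) ≤
      2 + 4 / ps q + -log (1 - q) + 2 / q := by
  have hp : 0 < 1 - q := by linarith
  have hP : Pos (ExN q (l + 1 + 1)) := ExN_pos h0 h1
  have lb : 0 ≤ -log (1 - q) := neg_nonneg.2 (log_nonpos hp.le (by linarith))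
  have s1 := level h0 h1 hd hg hone (l := l) le_rfl one_pos
  have s3 := DD_le h0 h1 hg hone (cF_le_one l) (j := l) (by omega) (l + 2)
  have ea : ExN q (l + 1 + 1) (gL q (l + 1 + 1) g l) = 1 := by
    have := ExN_gL (q := q) (n := l + 1 + 1) g (Dep_one l)
    rw [mul_one, mul_one] at this; rw [← this, hone]
  have eb : q * ExN q (l + 1 + 1) (fun σ => gL q (l + 1 + 1) g (l + 1) (cns false σ)) ≤ 1 := by
    rw [← ExN_zr ((gL_dep hd (L := l + 1) (by omega)).mono (by omega)), mul_comm,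
      ← ExN_gL g (Dep_zr (by omega)), ← hone]
    exact hP.mono fun σ => mul_le_of_le_one_right (hg σ).le (zr_le_one _ _)
  have s4 : ExN q (l + 1 + 1) (TmF q (l + 1) g l) ≤
      -log (1 - q) * ExN q (l + 1 + 1) (gL q (l + 1 + 1) g l) +
      2 * ExN q (l + 1 + 1) (fun σ => gL q (l + 1 + 1) g (l + 1) (cns false σ)) := by
    rw [← lin_smul, ← lin_smul, ← map_add]
    refine hP.mono fun σ => ?_
    have a0 := gL_pos (n := l + 1 + 1) h0 h1 hg (l + 1) (update σ l false)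
    have a1 := gL_pos (n := l + 1 + 1) h0 h1 hg (l + 1) (update σ l true)
    have c0 := gL_pos (n := l + 1 + 1) h0 h1 hg (l + 2) (cns false (update σ l false))
    have c1 := gL_pos (n := l + 1 + 1) h0 h1 hg (l + 2) (cns false (update σ l true))
    refine (Tm_le_one h0 h1 a0 a1 c0 c1).trans ?_
    simp only [Pi.add_apply, Pi.smul_apply, smul_eq_mul, gL_a le_rfl σ, gL_b le_rfl σ]
    have t := mul_le_mul_of_nonneg_left (sqrt_sub_sq_le c1.le c0.le) (mul_pos h0 hp).le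
    nlinarith [mul_pos (mul_pos h0 h0) c0, mul_pos (mul_pos hp hp) c1,
      mul_nonneg (mul_nonneg lb hp.le) (add_pos (mul_pos h0 a0) (mul_pos hp a1)).le,
      mul_nonneg (mul_nonneg lb (mul_pos h0 hp).le) (add_pos (mul_pos h0 c0) (mul_pos hp c1)).le]
  have s5 : ExN q (l + 1 + 1) (fun σ => gL q (l + 1 + 1) g (l + 1) (cns false σ)) ≤ 1 / q := by
    rw [le_div_iff₀ h0, mul_comm]; exact eb
  have s6 : 0 < 4 / (1 * ps q) := by have := ps_pos h0 h1; positivity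
  have s7 := mul_le_mul_of_nonneg_left s3 s6.le
  rw [ea] at s4
  rw [one_mul] at s1 s7
  have : 2 / q = 2 * (1 / q) := by ring
  linarith

/-- Entropy production at one site. -/
noncomputable def Dl (q : ℝ) (G : ℕ → (ℕ → Bool) → ℝ) (j l : ℕ) : ℝ :=
  ExN q (l + 1 + 1) (cF j * (grad j (fun σ => log (G (l + 1) σ)) * grad j (G (l + 1))))

lemma Stat.Dl_nonneg (h0 : 0 < q) (h1 : q < 1) (S : Stat q ν G) (j l : ℕ) : 0 ≤ Dl q G j l :=
  ExN_pos h0 h1 _ fun σ => mul_nonneg (cF_nonneg j σ)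
    ((mul_self_nonneg _).trans (prod_ge (S.pos h0 h1 _ _) (S.pos h0 h1 _ _)))

lemma Stat.Dl_sum (h0 : 0 < q) (h1 : q < 1) (S : Stat q ν G) :
    ∃ C, 0 < C ∧ ∀ l, ∑ j ∈ range l, Dl q G j l ≤ C := by
  have hp : 0 < 1 - q := by linarith
  have lb : 0 ≤ -log (1 - q) := neg_nonneg.2 (log_nonpos hp.le (by linarith))
  have pp := ps_pos h0 h1
  refine ⟨(2 + 4 / ps q + -log (1 - q) + 2 / q) / (q * (1 - q)), by positivity, fun l => ?_⟩
  have e := S.gL_eq h0 h1 (Nat.le_succ (l + 1))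
  have d : Dep (l + 1) fun σ => log (G (l + 1) σ) := (S.dep _).comp log
  have := top_log h0 h1 (S.dep (l + 1 + 1)) (S.pos h0 h1 _) (S.hone _) (by
    rw [e, ← S.rep _ _ (Dep_LF d), S.inv _ _ d])
  rw [e] at this
  rw [le_div_iff₀ (mul_pos h0 hp), mul_comm]
  exact this

/-- Dirichlet form of the square root of the density across one bond. -/
noncomputable def Ds (q : ℝ) (G : ℕ → (ℕ → Bool) → ℝ) (j L : ℕ) : ℝ :=
  ExN q L (zr j * (grad (j + 1) (fun σ => √(G L σ)) * grad (j + 1) (fun σ => √(G L σ))))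

lemma Ds_nonneg (h0 : 0 < q) (h1 : q < 1) (j L : ℕ) : 0 ≤ Ds q G j L :=
  ExN_pos h0 h1 _ fun σ => mul_nonneg (zr_nonneg j σ) (mul_self_nonneg _)

lemma Stat.Ds_eq (h0 : 0 < q) (h1 : q < 1) (S : Stat q ν G) {j L N : ℕ} (hj : j < L)
    (hL : L ≤ N + 1) : Ds q G j L = DD q N (G (N + 1)) (zr j) (j + 1) L := by
  have d := ((S.dep L).comp sqrt).grad (j + 1)
  rw [DD, S.gL_eq h0 h1 hL, ExN_level ((Dep_zr hj).mul (d.mul d)) hL, Ds]

lemma Stat.Ds_mono (h0 : 0 < q) (h1 : q < 1) (S : Stat q ν G) {j L M : ℕ} (hj : j + 1 < L)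
    (hL : L ≤ M) : Ds q G j L ≤ Ds q G j M := by
  rw [S.Ds_eq h0 h1 (N := M) (by omega) (by omega), S.Ds_eq h0 h1 (N := M) (by omega) (by omega)]
  exact DD_mono h0 h1 (S.pos h0 h1 _) (zr_nonneg j) (Dep_zr (by omega)) hj hL (by omega)

lemma Stat.Ds_sum (h0 : 0 < q) (h1 : q < 1) (S : Stat q ν G) :
    ∃ C, ∀ l, ∑ j ∈ range l, Ds q G j (l + 1) ≤ C := by
  obtain ⟨C, -, hC⟩ := S.Dl_sum h0 h1
  refine ⟨C, fun l => le_trans ?_ (hC (l + 1))⟩
  rw [sum_range_succ']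
  refine le_trans (sum_le_sum fun j hj => ?_) (le_add_of_nonneg_right (S.Dl_nonneg h0 h1 0 _))
  rw [mem_range] at hj
  refine (S.Ds_mono h0 h1 (M := l + 1 + 1) (by omega) (by omega)).trans ?_
  have d := ((S.dep (l + 1 + 1)).comp sqrt).grad (j + 1)
  rw [Ds, ← ExN_level (n := l + 1 + 1 + 1) ((Dep_zr (by omega)).mul (d.mul d)) (by omega)]
  refine (ExN_pos h0 h1).mono fun σ => ?_
  exact mul_le_mul (zr_le_cF j σ) (prod_ge (S.pos h0 h1 _ _) (S.pos h0 h1 _ _))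
    (mul_self_nonneg _) (cF_nonneg _ σ)

lemma Stat.Ds_tail (h0 : 0 < q) (h1 : q < 1) (S : Stat q ν G) {δ : ℝ} (hδ : 0 < δ) :
    ∃ d, ∀ N, ∑ i ∈ range N, Ds q G (d + i) (d + N + 1) ≤ δ := by
  obtain ⟨C, hC⟩ := S.Ds_sum h0 h1
  set T : ℕ → ℝ := fun l => ∑ j ∈ range l, Ds q G j (l + 1) with hT
  have bd : BddAbove (Set.range T) := ⟨C, by rintro _ ⟨l, rfl⟩; exact hC l⟩
  obtain ⟨d, hd⟩ := exists_lt_of_lt_ciSup (f := T) (sub_lt_self (⨆ l, T l) hδ)
  refine ⟨d, fun N => ?_⟩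
  have a := le_ciSup bd (d + N)
  have b : T d ≤ ∑ j ∈ range d, Ds q G j (d + N + 1) := sum_le_sum fun j hj =>
    S.Ds_mono h0 h1 (by have := mem_range.1 hj; omega) (by omega)
  simp only [hT] at a
  rw [sum_range_add] at a
  linarith

end Pool.Agent.FA1f.Fr
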