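import Pool.Agent.Lib.MP_be561b_pr.Fr.Uniq

/-! The speed of the front and approximate correctors. -/

namespace Pool.Agent.FA1f.Fr

open Function Finset Real Filter Topology

variable {q : ℝ}

lemma LF_level {N M : ℕ} {φ : (ℕ → Bool) → ℝ} (h : Dep N φ) (hM : N ≤ M) :
    LF q M φ = LF q N φ := by
  unfold LF
  congr 2
  symm
  refine sum_subset (range_subset_range.2 hM) fun j _ hj => ?_
  rw [mem_range, not_lt] at hj
  rw [(h.ind hj).E_eq, sub_self, mul_zero]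

lemma LF_add (N : ℕ) (φ ψ : (ℕ → Bool) → ℝ) (σ : ℕ → Bool) :
    LF q N (φ + ψ) σ = LF q N φ σ + LF q N ψ σ := by
  have : ∀ j, cF j σ * (E q j φ σ + E q j ψ σ - (φ σ + ψ σ)) =
      cF j σ * (E q j φ σ - φ σ) + cF j σ * (E q j ψ σ - ψ σ) := fun j => by ring
  simp only [LF, Pi.add_apply, Finset.sum_apply, Pi.mul_apply, Pi.sub_apply, Pi.smul_apply,
    smul_eq_mul, map_add, this, sum_add_distrib]
  ring

lemma LF_smul (N : ℕ) (c : ℝ) (φ : (ℕ → Bool) → ℝ) (σ : ℕ → Bool) :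
    LF q N (c • φ) σ = c * LF q N φ σ := by
  have : ∀ j, cF j σ * (c * E q j φ σ - c * φ σ) = c * (cF j σ * (E q j φ σ - φ σ)) :=
    fun j => by ring
  simp only [LF, Pi.add_apply, Finset.sum_apply, Pi.mul_apply, Pi.sub_apply, Pi.smul_apply,
    smul_eq_mul, map_smul, this, ← mul_sum]
  ring

lemma Dep_min {n : ℕ} {φ : (ℕ → Bool) → ℝ} (h : Dep n φ) : ∃ τ, ∀ σ, φ τ ≤ φ σ := by
  obtain ⟨x, hx⟩ := Finite.exists_min fun x : Fin n → Bool =>
    φ fun j => if hj : j < n then x ⟨j, hj⟩ else true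
  exact ⟨_, fun σ => (hx fun j => σ j).trans_eq (h _ _ fun j hj => dif_pos hj)⟩

lemma Dep_bdd {n : ℕ} {φ : (ℕ → Bool) → ℝ} (h : Dep n φ) : ∃ M, 0 < M ∧ ∀ σ, |φ σ| ≤ M := by
  obtain ⟨a, ha⟩ := Dep_min h
  obtain ⟨b, hb⟩ := Dep_min (h.comp Neg.neg)
  refine ⟨|φ a| + |φ b| + 1, by positivity, fun σ => abs_le.2 ⟨?_, ?_⟩⟩
  · linarith [ha σ, neg_abs_le (φ a), abs_nonneg (φ b)]
  · have := hb σ
    linarith [le_abs_self (φ b), abs_nonneg (φ a)]

lemma LF_min (h0 : 0 < q) (h1 : q < 1) (N : ℕ) {φ : (ℕ → Bool) → ℝ} {τ : ℕ → Bool}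
    (h : ∀ σ, φ τ ≤ φ σ) : 0 ≤ LF q N φ τ := by
  have hp : 0 < 1 - q := by linarith
  simp only [LF, Pi.add_apply, Finset.sum_apply, Pi.mul_apply, Pi.sub_apply, Pi.smul_apply,
    smul_eq_mul]
  refine add_nonneg (add_nonneg (sum_nonneg fun j _ => mul_nonneg (cF_nonneg _ _) ?_)
    (mul_nonneg h0.le (sub_nonneg.2 (h _))))
    (mul_nonneg hp.le (mul_nonneg (zr_nonneg _ _) (sub_nonneg.2 (h _))))
  rw [E_apply]
  nlinarith [h (update τ j false), h (update τ j true)]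

/-- Local functions. -/
def Loc : Submodule ℝ ((ℕ → Bool) → ℝ) where
  carrier := {f | ∃ n, Dep n f}
  add_mem' := fun ⟨n, a⟩ ⟨m, b⟩ =>
    ⟨max n m, (a.mono (le_max_left _ _)).add (b.mono (le_max_right _ _))⟩
  zero_mem' := ⟨0, fun _ _ _ => rfl⟩
  smul_mem' := fun c _ ⟨n, a⟩ => ⟨n, a.smul c⟩

/-- Upper bounds of a function after adding a generator term. -/
def UB (q : ℝ) (f : (ℕ → Bool) → ℝ) : Set ℝ :=
  {c | ∃ N φ, Dep N φ ∧ ∀ σ, f σ + LF q N φ σ ≤ c}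

lemma mem_UB {f : (ℕ → Bool) → ℝ} {c : ℝ} (h : ∀ σ, f σ ≤ c) : c ∈ UB q f :=
  ⟨0, 0, fun _ _ _ => rfl, fun σ => by simpa [LF] using h σ⟩

lemma UB_nonempty (f : Loc) : (UB q f).Nonempty := by
  obtain ⟨n, hn⟩ := f.2
  obtain ⟨M, -, hM⟩ := Dep_bdd hn
  exact ⟨M, mem_UB fun σ => (abs_le.1 (hM σ)).2⟩

lemma UB_bdd (h0 : 0 < q) (h1 : q < 1) (f : Loc) : BddBelow (UB q f) := by
  obtain ⟨n, hn⟩ := f.2
  obtain ⟨M, -, hM⟩ := Dep_bdd hn
  refine ⟨-M, fun c ⟨N, φ, d, h⟩ => ?_⟩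
  obtain ⟨τ, hτ⟩ := Dep_min d
  linarith [h τ, LF_min h0 h1 N hτ, (abs_le.1 (hM τ)).1]

lemma UB_add (h0 : 0 < q) (h1 : q < 1) (f g : Loc) :
    sInf (UB q (f + g : Loc)) ≤ sInf (UB q f) + sInf (UB q g) := by
  rw [← sub_le_iff_le_add]
  refine le_csInf (UB_nonempty f) fun a ⟨N, φ, d, h⟩ => ?_
  rw [sub_le_comm]
  refine le_csInf (UB_nonempty g) fun b ⟨M, ψ, d', h'⟩ => ?_
  rw [sub_le_iff_le_add']
  refine csInf_le (UB_bdd h0 h1 _) ⟨max N M, φ + ψ,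
    (d.mono (le_max_left _ _)).add (d'.mono (le_max_right _ _)), fun σ => ?_⟩
  rw [LF_add, LF_level d (le_max_left _ _), LF_level d' (le_max_right _ _)]
  have := h σ
  have := h' σ
  simp only [Submodule.coe_add, Pi.add_apply]
  linarith

lemma UB_smul_le (h0 : 0 < q) (h1 : q < 1) {c : ℝ} (hc : 0 < c) (f : Loc) :
    sInf (UB q (c • f : Loc)) ≤ c * sInf (UB q f) := by
  rw [← inv_mul_le_iff₀ hc]
  refine le_csInf (UB_nonempty f) fun a ⟨N, φ, d, h⟩ => ?_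
  rw [inv_mul_le_iff₀ hc]
  refine csInf_le (UB_bdd h0 h1 _) ⟨N, c • φ, d.smul c, fun σ => ?_⟩
  rw [LF_smul]
  have := mul_le_mul_of_nonneg_left (h σ) hc.le
  simp only [Submodule.coe_smul, Pi.smul_apply, smul_eq_mul]
  linarith

lemma UB_smul (h0 : 0 < q) (h1 : q < 1) (c : ℝ) (hc : 0 < c) (f : Loc) :
    sInf (UB q (c • f : Loc)) = c * sInf (UB q f) := by
  refine le_antisymm (UB_smul_le h0 h1 hc f) ?_
  have := UB_smul_le h0 h1 (inv_pos.2 hc) (c • f)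
  rwa [smul_smul, inv_mul_cancel₀ hc.ne', one_smul, le_inv_mul_iff₀ hc] at this

lemma exists_stat (h0 : 0 < q) (h1 : q < 1) (f : Loc) (hf : f ≠ 0) :
    ∃ ν G, Stat q ν G ∧ ν f = sInf (UB q f) := by
  have p0 : sInf (UB q (0 : Loc)) = 0 := by
    have := UB_smul h0 h1 2 two_pos 0
    rw [smul_zero] at this; linarith
  obtain ⟨g, g1, g2⟩ := exists_extension_of_le_sublinear
    (LinearPMap.mkSpanSingleton f (sInf (UB q f)) hf) (fun x : Loc => sInf (UB q x))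
    (UB_smul h0 h1) (UB_add h0 h1) (by
      rintro ⟨x, hx⟩
      obtain ⟨c, rfl⟩ := Submodule.mem_span_singleton.1 hx
      rw [LinearPMap.mkSpanSingleton'_apply]
      simp only [RingHom.id_apply, smul_eq_mul]
      rcases lt_trichotomy c 0 with h | h | h
      · have a := UB_add h0 h1 (c • f) ((-c) • f)
        rw [← add_smul, add_neg_cancel, zero_smul, p0, UB_smul h0 h1 _ (neg_pos.2 h)] at a
        linarith
      · rw [h, zero_smul, p0, zero_mul]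
      · rw [UB_smul h0 h1 _ h])
  obtain ⟨ν, hν⟩ := g.exists_extend
  have e : ∀ x : Loc, ν x = g x := fun x => LinearMap.congr_fun hν x
  have le : ∀ {n F c}, Dep n F → c ∈ UB q F → ν F ≤ c := fun {n F c} d hc =>
    (e ⟨F, n, d⟩).trans_le ((g2 _).trans (csInf_le (UB_bdd h0 h1 ⟨F, n, d⟩) hc))
  have pos : ∀ n, Pos (ν.comp (LinearMap.funLeft ℝ ℝ (tr n))) := fun n F hF => by
    have := le ((Dep_tr n F).smul (-1)) (mem_UB (c := 0) fun σ => by simpa using hF (tr n σ))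
    rw [lin_smul] at this
    have e2 : (ν.comp (LinearMap.funLeft ℝ ℝ (tr n))) F = ν fun σ => F (tr n σ) := rfl
    linarith
  choose G a b c using fun n => exists_density h0 h1 n _ (pos n)
  have inv : ∀ N φ, Dep N φ → ν (LF q N φ) ≤ 0 := fun N φ d =>
    le (Dep_LF d) ⟨N, (-1 : ℝ) • φ, d.smul _, fun σ => by rw [LF_smul]; linarith⟩
  refine ⟨ν, G, ⟨b, a, fun n F hF => ?_, ?_, fun N φ d => ?_⟩, ?_⟩
  · rw [← c n F hF]
    exact congrArg ν (funext (Dep_tr_eq hF)).symm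
  · have u := le (Dep_one 0) (mem_UB (c := 1) fun _ => le_rfl)
    have v := le ((Dep_one 0).smul (-1)) (mem_UB (c := -1) fun _ => by simp)
    rw [lin_smul] at v
    linarith
  · have u := inv N _ (d.smul (-1))
    rw [show LF q N ((-1 : ℝ) • φ) = (-1 : ℝ) • LF q N φ from funext (LF_smul N _ φ),
      lin_smul] at u
    linarith [inv N φ d]
  · rw [e]
    exact (g1 ⟨f, Submodule.mem_span_singleton_self f⟩).trans
      (LinearPMap.mkSpanSingleton_apply ℝ ℝ hf _)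

theorem corrector (h0 : 0 < q) (h1 : q < 1) : ∃ v > 0, ∀ ε > 0, ∀ s : ℝ, s = 1 ∨ s = -1 →
    ∃ N ψ, Dep N ψ ∧ ∀ σ, -s * vF q σ + LF q N ψ σ ≤ -s * v + ε := by
  have ne : ∀ s : ℝ, s = 1 ∨ s = -1 →
      (⟨(-s) • vF q, 1, (Dep_vF q).smul _⟩ : Loc) ≠ 0 := fun s hs h => by
    have := congrFun (congrArg Subtype.val h) fun _ => true
    rcases hs with rfl | rfl <;> simp [vF, zr, h0.ne'] at this
  obtain ⟨ν, G, S, -⟩ := exists_stat h0 h1 _ (ne 1 (Or.inl rfl))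
  refine ⟨ν (vF q), ?_, fun ε e0 s hs => ?_⟩
  · obtain ⟨κ, κ0, ε, ε0, N, M, -, H⟩ := drift_main h0 h1
    have r : ∀ F, Dep (N + 1) F → (ExN q (N + 1)).comp (LinearMap.mulLeft ℝ (G (N + 1))) F = ν F :=
      fun F hF => (S.rep _ F hF).symm
    have := H ((ExN q (N + 1)).comp (LinearMap.mulLeft ℝ (G (N + 1))))
      (fun F hF => ExN_pos h0 h1 _ fun σ => mul_nonneg (S.nn _ σ) (hF σ))
      (by rw [r _ (Dep_one _), S.one])
      (fun φ d _ => by rw [r _ (Dep_LF d), S.inv _ _ d]; linarith)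
    rw [r _ ((Dep_vF q).mono (by omega))] at this
    exact κ0.trans_le this
  · obtain ⟨ν1, G1, S1, e⟩ := exists_stat h0 h1 _ (ne s hs)
    simp only [lin_smul, S.unique h0 h1 S1 (Dep_vF q)] at e
    obtain ⟨c, ⟨N, ψ, d, h⟩, hc⟩ := exists_lt_of_csInf_lt
      (UB_nonempty (q := q) ⟨(-s) • vF q, 1, (Dep_vF q).smul _⟩) (lt_add_of_pos_right _ e0)
    refine ⟨N, ψ, d, fun σ => (h σ).trans ?_⟩
    rw [e]; exact hc.le

end Pool.Agent.FA1f.Fr
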