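import Pool.Agent.Lib.MP_be561b_pr.Fr.Corr
import Pool.Agent.Lib.MP_be561b_pr.Assemble

/-! Exponential concentration of the front around its mean motion. -/

namespace Pool.Agent.FA1f.Fr

open Function Finset Real Filter Topology

variable {q : ℝ}

lemma exp_step {θ B c u a b : ℝ} (t0 : 0 < θ) (tB : θ * B ≤ 1) (h : |u + b - a| ≤ B) :
    exp (θ * (c + u + b)) - exp (θ * (c + a)) ≤
      exp (θ * (c + a)) * (θ * (u + b - a) + θ ^ 2 * B ^ 2) := by
  have h1 : |θ * (u + b - a)| ≤ θ * B := by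
    rw [abs_mul, abs_of_pos t0]; exact mul_le_mul_of_nonneg_left h t0.le
  have h2 := (abs_le.1 (Real.abs_exp_sub_one_sub_id_le (h1.trans tB))).2
  have h3 : (θ * (u + b - a)) ^ 2 ≤ (θ * B) ^ 2 := sq_le_sq' (abs_le.1 h1).1 (abs_le.1 h1).2
  rw [show θ * (c + u + b) = θ * (c + a) + θ * (u + b - a) by ring, exp_add]
  nlinarith [exp_pos (θ * (c + a))]

lemma good_le (h0 : 0 < q) (h1 : q < 1) {N : ℕ} {ψ : (ℕ → Bool) → ℝ} {M θ s c : ℝ}
    (hM : ∀ σ, |ψ σ| ≤ M) (hs : |s| ≤ 1) (t0 : 0 < θ) (tB : θ * (1 + 2 * M) ≤ 1) (σ : ℕ → Bool) :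
    ∑ j ∈ range N, cF j σ * (E q j (fun τ => exp (θ * (c + ψ τ))) σ - exp (θ * (c + ψ σ))) +
      q * (exp (θ * (c + -s + ψ (cns false σ))) - exp (θ * (c + ψ σ))) +
      (1 - q) * (zr 0 σ * (exp (θ * (c + s + ψ (shf σ))) - exp (θ * (c + ψ σ)))) ≤
      exp (θ * (c + ψ σ)) * (θ * (-s * vF q σ + LF q N ψ σ) +
        (N + 2) * (θ ^ 2 * (1 + 2 * M) ^ 2)) := by
  have hp : 0 < 1 - q := by linarith
  have st : ∀ u τ, |u| ≤ 1 → exp (θ * (c + u + ψ τ)) - exp (θ * (c + ψ σ)) ≤
      exp (θ * (c + ψ σ)) * (θ * (u + ψ τ - ψ σ) + θ ^ 2 * (1 + 2 * M) ^ 2) := fun u τ hu =>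
    exp_step t0 tB (by
      have := abs_le.1 hu
      have := abs_le.1 (hM τ)
      have := abs_le.1 (hM σ)
      rw [abs_le]; constructor <;> linarith)
  set X := exp (θ * (c + ψ σ)) with hX
  set W := θ ^ 2 * (1 + 2 * M) ^ 2 with hW
  have XW : 0 ≤ X * W := by positivity
  have a : ∀ j ∈ range N, cF j σ * (E q j (fun τ => exp (θ * (c + ψ τ))) σ - X) ≤
      X * θ * (cF j σ * (E q j ψ σ - ψ σ)) + X * W := fun j _ => by
    have u0 := st 0 (update σ j false) (by simp)
    have u1 := st 0 (update σ j true) (by simp)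
    rw [add_zero, zero_add] at u0 u1
    have c0 := cF_nonneg j σ
    simp only [E_apply]
    nlinarith [mul_le_mul_of_nonneg_left u0 (mul_nonneg c0 h0.le),
      mul_le_mul_of_nonneg_left u1 (mul_nonneg c0 hp.le),
      mul_nonneg XW (sub_nonneg.2 (cF_le_one j σ))]
  have b := sum_le_sum a
  rw [sum_add_distrib, ← mul_sum, sum_const, card_range, nsmul_eq_mul] at b
  have z0 := zr_nonneg 0 σ
  have u0 := mul_le_mul_of_nonneg_left (st (-s) (cns false σ) (by rwa [abs_neg])) h0.le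
  have u1 := mul_le_mul_of_nonneg_left (st s (shf σ) hs) (mul_nonneg hp.le z0)
  have z1 : (1 - q) * zr 0 σ ≤ 1 := by nlinarith [zr_le_one 0 σ]
  simp only [LF, vF, Pi.add_apply, Finset.sum_apply, Pi.mul_apply, Pi.sub_apply, Pi.smul_apply,
    smul_eq_mul, Pi.one_apply]
  nlinarith [mul_nonneg XW hp.le, mul_nonneg XW (sub_nonneg.2 z1)]

section Torus

variable {m : ℕ} [NeZero m]

lemma bad_le (h0 : 0 < q) (h1 : q < 1) {K : ℕ} (hK : 1 ≤ K) (hm : 2 * K + 4 ≤ m) (x : ZMod m)
    {η0 : ZMod m → Bool} (ez : η0 (x + (K + 1 : ℕ)) = false)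
    (hh : ∀ i : ℤ, i.natAbs ≤ K → η0 (x + i) = true) {s : ℝ} (hs : 0 ≤ s) :
    sg (LT q m) s (badF (fun i : ℕ => x + i) K) η0 ≤ 2 * exp (2 * s) / 2 ^ K := by
  have hA := LT_pos (m := m) h0 h1
  set e : ℕ → ZMod m := fun i => x + i with he'
  set r : ℝ := 1 / 2 ^ K with hr
  have r0 : 0 < r := by positivity
  have e0 : e 0 = x := by simp [he']
  have x0 : K + 1 ≤ xi (e 0) η0 := by
    by_contra hc
    obtain ⟨i, hi, h2⟩ := xi_spec (z := e 0) (η := η0) (by omega)
    rw [e0, hh i (by omega)] at h2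
    exact absurd h2 (by simp)
  have xz : xi (e (K + 1)) η0 = 0 := by
    have : xi (e (K + 1)) η0 ≤ (0 : ℤ).natAbs := xi_le_of (by simpa [he'] using ez)
    simpa using this
  have far : ∀ η, YF e K η = 2 * K → K ≤ xi (e (K + 1)) η := fun η hY => by
    by_contra hc
    push Not at hc
    obtain ⟨i, hi, h2⟩ := xi_spec (z := e (K + 1)) (η := η) (by omega)
    obtain ⟨j, hj, hj2⟩ : ∃ j : ℕ, j < 2 * K ∧ (j : ℤ) = K + i :=
      ⟨(K + i).toNat, by omega, by omega⟩
    have : e (K + 1) + (i : ZMod m) = e (j + 1) := by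
      have := congrArg (Int.cast : ℤ → ZMod m) hj2
      simp only [he']
      push_cast at this ⊢
      rw [this]; ring
    rw [this, YF_lt (e := e) (η := η) (K := K) (i := j) (by omega)] at h2
    exact absurd h2 (by simp)
  have up2 := sg_le_exp hA (LT_pow_xi h0 h1 (by omega) one_le_two le_rfl (e (K + 1))) hs η0
  rw [xz, pow_zero, mul_one] at up2
  have b1 := sg_mono hA hs (f := badF e K) (g := (2 : ℝ) • (fun η => (1 / 2 : ℝ) ^ xi (e 0) η) +
    r • fun η => (2 : ℝ) ^ xi (e (K + 1)) η) (fun η => by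
      simp only [Pi.add_apply, Pi.smul_apply, smul_eq_mul, badF]
      have p1 : 0 < 2 * (1 / 2 : ℝ) ^ xi (e 0) η := by positivity
      have p2 : 0 < r * (2 : ℝ) ^ xi (e (K + 1)) η := by positivity
      split_ifs with hg
      · positivity
      · by_cases c1 : xi (e 0) η ≤ 1
        · have := pow_le_pow_of_le_one (show (0 : ℝ) ≤ 1 / 2 by norm_num) (by norm_num) c1
          linarith
        · have c2 : η (e 0) = true := by
            by_contra hc
            have : xi (e 0) η ≤ (0 : ℤ).natAbs := xi_le_of (by simpa using hc)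
            simp at this; omega
          have c3 : 1 ≤ YF e K η := by
            by_contra hc
            have h2 := YF_zero (e := e) (K := K) (η := η) (by omega)
            rw [show YF e K η = 0 by omega] at h2
            have : xi (e 0) η ≤ (1 : ℤ).natAbs := xi_le_of (by
              rw [← h2]; simp only [he']; congr 1; push_cast; ring)
            simp at this; omega
          have c4 := far η (by
            have := YF_le (e := e) (K := K) η
            by_contra hc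
            exact hg ⟨c2, c3, by omega⟩)
          have := pow_le_pow_right₀ (one_le_two (α := ℝ)) c4
          have : 1 ≤ r * (2 : ℝ) ^ xi (e (K + 1)) η := by
            rw [hr, div_mul_eq_mul_div, one_mul, one_le_div (by positivity)]; exact this
          linarith) η0
  rw [map_add, map_smul, map_smul] at b1
  simp only [Pi.add_apply, Pi.smul_apply, smul_eq_mul] at b1
  have b2 := sg_le_exp hA (LT_half_xi h0 h1 (e 0)) hs η0
  have b3 := pow_le_pow_of_le_one (show (0 : ℝ) ≤ 1 / 2 by norm_num) (by norm_num) x0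
  have b5 := mul_le_mul_of_nonneg_left b3 (exp_pos (2 * s)).le
  have b6 : (1 / 2 : ℝ) ^ (K + 1) = r / 2 := by rw [hr, pow_succ, one_div_pow]; ring
  rw [b6] at b5
  have := mul_le_mul_of_nonneg_left up2 r0.le
  rw [show 2 * exp (2 * s) / 2 ^ K = 2 * exp (2 * s) * r by rw [hr]; ring]
  linarith

lemma gronwall_abs {y y' : ℝ → ℝ} {t a b : ℝ} (ht : 0 ≤ t) (hb : 0 ≤ b)
    (hy : ∀ s, HasDerivAt y (y' s) s) (h : ∀ s ∈ Set.Icc 0 t, y' s ≤ a * y s + b) :
    y t ≤ exp (a * t) * (y 0 + b * exp (|a| * t) * t) := by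
  have key := le_of_deriv_nonpos (y := fun s => exp (-a * s) * y s - b * exp (|a| * t) * s)
    (y' := fun s => exp (-a * s) * -a * y s + exp (-a * s) * y' s - b * exp (|a| * t)) ht
    (fun s _ => by
      have h1 : HasDerivAt (fun s => exp (-a * s)) (exp (-a * s) * -a) s := by
        simpa using ((hasDerivAt_id s).const_mul (-a)).exp
      exact ((h1.fun_mul (hy s)).fun_sub
        ((hasDerivAt_id' s).const_mul (b * exp (|a| * t)))).congr_deriv (by ring))
    (fun s hs => by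
      have u := mul_le_mul_of_nonneg_left (h s hs) (exp_pos (-a * s)).le
      have v : exp (-a * s) ≤ exp (|a| * t) := exp_le_exp.2 (by
        nlinarith [neg_le_abs a, abs_nonneg a, hs.1, hs.2])
      nlinarith [mul_le_mul_of_nonneg_left v hb])
  simp only [mul_zero, exp_zero, one_mul, sub_zero] at key
  have e : exp (a * t) * exp (-a * t) = 1 := by rw [← exp_add]; simp
  have := mul_le_mul_of_nonneg_left (sub_le_iff_le_add.1 key) (exp_pos (a * t)).le
  rwa [← mul_assoc, e, one_mul] at this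

lemma dev_torus (h0 : 0 < q) (h1 : q < 1) {N K : ℕ} {ψ : (ℕ → Bool) → ℝ} (dψ : Dep N ψ)
    {M θ s a : ℝ} (hM : ∀ σ, |ψ σ| ≤ M) (hs : |s| ≤ 1) (t0 : 0 < θ) (tB : θ * (1 + 2 * M) ≤ 1)
    (ha : ∀ σ, θ * (-s * vF q σ + LF q N ψ σ) + (N + 2) * (θ ^ 2 * (1 + 2 * M) ^ 2) ≤ a)
    (hK : 1 ≤ K) (hm : 2 * K + N + 4 ≤ m) (x : ZMod m)
    {η0 : ZMod m → Bool} (ez : η0 (x + (K + 1 : ℕ)) = false)
    (hh : ∀ i : ℤ, i.natAbs ≤ K → η0 (x + i) = true) {t : ℝ} (ht : 0 ≤ t) (w : ℝ) :
    sg (LT q m) t (fun η => if w < s * ((YF (fun i : ℕ => x + (i : ZMod m)) K η : ℝ) - K) then 1 else 0) η0 ≤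
      exp (θ * (M - w)) * (exp (a * t) * (exp (θ * M) +
        ((2 * K + N + 2) * (2 * exp (θ * (K + M))) + |a| * exp (θ * (K + M))) *
          (2 * exp (2 * t) / 2 ^ K) * exp (|a| * t) * t)) := by
  have hA := LT_pos (m := m) h0 h1
  set e : ℕ → ZMod m := fun i => x + i with he'
  have he : ∀ i ≤ 2 * K + N + 2, ∀ j ≤ 2 * K + N + 2, e i = e j → i = j := by
    intro i hi j hj h
    simp only [he', add_right_inj] at h
    rw [ZMod.natCast_eq_natCast_iff'] at h
    rwa [Nat.mod_eq_of_lt (by omega), Nat.mod_eq_of_lt (by omega)] at h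
  have hn : ∀ i η, cT (e (i + 1)) η =
      if η (e i) = false ∨ η (e (i + 2)) = false then 1 else 0 := by
    intro i η
    have u1 : e (i + 1) - 1 = e i := by simp only [he']; push_cast; ring
    have u2 : e (i + 1) + 1 = e (i + 2) := by simp only [he']; push_cast; ring
    rw [cT, u1, u2]
  have Y0 : YF e K η0 = K := YF_eq (fun i hi => by
    have := hh (i + 1 : ℕ) (by omega)
    rwa [Int.cast_natCast] at this) (Or.inl ez) (by omega)
  set Φ : ℕ → (ℕ → Bool) → ℝ := fun y σ => exp (θ * (s * ((y : ℝ) - K) + ψ σ)) with hΦ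
  have dΦ : ∀ y, Dep N (Φ y) := fun y => dψ.comp fun z => exp (θ * (s * ((y : ℝ) - K) + z))
  set MK := exp (θ * (K + M)) with hMK
  have bΦ : ∀ y ≤ 2 * K, ∀ σ, |Φ y σ| ≤ MK := fun y hy σ => by
    rw [abs_of_pos (exp_pos _)]
    refine exp_le_exp.2 (mul_le_mul_of_nonneg_left (add_le_add ?_ (abs_le.1 (hM σ)).2) t0.le)
    have y2 : (y : ℝ) ≤ 2 * K := by exact_mod_cast hy
    have y0 : (0 : ℝ) ≤ y := Nat.cast_nonneg y
    have : |(y : ℝ) - K| ≤ K := abs_le.2 ⟨by linarith, by linarith⟩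
    refine (le_abs_self _).trans ?_
    rw [abs_mul]
    nlinarith [abs_nonneg s, abs_nonneg ((y : ℝ) - K)]
  set F : (ZMod m → Bool) → ℝ := fun η => Φ (YF e K η) (sF e K η) with hF
  set R := (2 * K + N + 2) * (2 * MK) + |a| * MK with hR
  have R0 : 0 ≤ R := by positivity
  have gen : LT q m F ≤ a • F + R • badF e K := fun η => by
    simp only [Pi.add_apply, Pi.smul_apply, smul_eq_mul, badF]
    split_ifs with hg
    · obtain ⟨y, hy⟩ : ∃ y, YF e K η = y + 1 := ⟨YF e K η - 1, by omega⟩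
      rw [hF, LT_good he hn dΦ hy hg.1 (by omega)]
      have g := good_le h0 h1 (N := N) (c := s * (((y + 1 : ℕ) : ℝ) - K)) hM hs t0 tB (sF e K η)
      have g2 := mul_le_mul_of_nonneg_left (ha (sF e K η))
        (exp_pos (θ * (s * (((y + 1 : ℕ) : ℝ) - K) + ψ (sF e K η)))).le
      rw [show s * (((y + 1 : ℕ) : ℝ) - K) + -s = s * ((y : ℝ) - K) by push_cast; ring,
        show s * (((y + 1 : ℕ) : ℝ) - K) + s = s * (((y + 2 : ℕ) : ℝ) - K) by push_cast; ring] at g
      simp only [hy, hΦ]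
      linarith
    · have b1 := (abs_le.1 (LT_bad (e := e) (K := K) h0 h1 dΦ bΦ η)).2
      have b2 : |a * F η| ≤ |a| * MK := by
        rw [abs_mul]; exact mul_le_mul_of_nonneg_left (bΦ _ (YF_le η) _) (abs_nonneg a)
      linarith [(abs_le.1 b2).1]
  have gr := gronwall_abs (y := fun r => sg (LT q m) r F η0)
    (y' := fun r => sg (LT q m) r (LT q m F) η0) (a := a) (b := R * (2 * exp (2 * t) / 2 ^ K)) ht
    (by positivity) (hasDerivAt_sg_apply _ F η0) fun r hr => by
      have u := sg_mono hA hr.1 gen η0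
      rw [map_add, map_smul, map_smul] at u
      simp only [Pi.add_apply, Pi.smul_apply, smul_eq_mul] at u
      have v := (bad_le h0 h1 hK (by omega) x ez hh hr.1).trans
        (show 2 * exp (2 * r) / 2 ^ K ≤ 2 * exp (2 * t) / 2 ^ K by gcongr; exact hr.2)
      linarith [mul_le_mul_of_nonneg_left v R0]
  have y0 : sg (LT q m) 0 F η0 ≤ exp (θ * M) := by
    rw [sg_zero]
    simp only [hF, hΦ, Y0, sub_self, mul_zero, zero_add]
    exact exp_le_exp.2 (mul_le_mul_of_nonneg_left (abs_le.1 (hM _)).2 t0.le)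
  have mk := sg_mono hA ht (g := exp (θ * (M - w)) • F)
    (f := fun η => if w < s * ((YF e K η : ℝ) - K) then 1 else 0) (fun η => by
      simp only [Pi.smul_apply, smul_eq_mul, hF, hΦ, ← exp_add]
      split_ifs with c
      · refine one_le_exp ?_
        rw [← mul_add]
        exact mul_nonneg t0.le (by linarith [(abs_le.1 (hM (sF e K η))).1])
      · exact (exp_pos _).le) η0
  rw [map_smul, Pi.smul_apply, smul_eq_mul] at mk
  refine mk.trans (mul_le_mul_of_nonneg_left (gr.trans ?_) (exp_pos _).le)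
  gcongr

end Torus

end Pool.Agent.FA1f.Fr
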