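import Pool.Agent.Lib.MP_be561b_pr.Fr.Fin

/-! Far from the front a stationary functional is close to the product law, uniformly in the
volume. -/

namespace Pool.Agent.FA1f.Fr

open Function Finset Real Filter Topology

variable {q : ℝ} {ν : ((ℕ → Bool) → ℝ) →ₗ[ℝ] ℝ} {G : ℕ → (ℕ → Bool) → ℝ}

lemma exists_k (h0 : 0 < q) (h1 : q < 1) : ∃ k : ℕ, 1 ≤ k ∧ 2 * (k + 1) * (1 - q) ^ k ≤ 1 / 2 := by
  have hp : 0 < 1 - q := by linarith
  have a := tendsto_self_mul_const_pow_of_lt_one hp.le (by linarith : 1 - q < 1)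
  have b := tendsto_pow_atTop_nhds_zero_of_lt_one hp.le (by linarith : 1 - q < 1)
  have c := (a.add b).const_mul 2
  rw [add_zero, mul_zero] at c
  obtain ⟨k, k1, k2⟩ := ((eventually_ge_atTop 1).and
    (c.eventually (gt_mem_nhds (show (0 : ℝ) < 1 / 2 by norm_num)))).exists
  exact ⟨k, k1, by linarith⟩

lemma Dep_EL {L : ℕ} {F : (ℕ → Bool) → ℝ} (hF : Dep L F) (l : List ℕ) : Dep L (EL q l F) := by
  induction l with
  | nil => exact hF
  | cons a l ih => rw [EL_cons]; exact ih.E q a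

lemma const_of_ind {L : ℕ} {H : (ℕ → Bool) → ℝ} (hH : Dep L H) (h : ∀ j < L, Ind j H)
    (σ τ : ℕ → Bool) : H σ = H τ := by
  rw [← Dep_tr_eq hH σ, ← Dep_tr_eq hH τ]
  refine Ind_agree (range L) (fun a ha => h a (mem_range.1 ha)) _ _ fun i hi => ?_
  rw [mem_range, not_lt] at hi
  rw [tr_far hi, tr_far hi]

lemma Stat.far_aux (h0 : 0 < q) (h1 : q < 1) (S : Stat q ν G) {k : ℕ} (hk1 : 1 ≤ k)
    (hk : 2 * (k + 1) * (1 - q) ^ k ≤ 1 / 2) {d b N : ℕ} (hb : b ≤ N) {η : ℝ} (e0 : 0 < η)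
    {F : (ℕ → Bool) → ℝ} (hF : Dep (d + N + 1) F) (hI : ∀ j < d + b, Ind j F)
    (hB : ∀ σ, |F σ| ≤ 2) :
    |ν F - ExN q (d + N + 1) F| ≤ 4 * ν (allH id d b) +
      2 / η * (Gam q k * (q * (1 - q)) * ∑ i ∈ range N, Ds q G (d + i) (d + N + 1)) + 8 * η := by
  set L := d + N + 1 with hL
  set Ex := ExN q L with hEx
  have hP : Pos Ex := ExN_pos h0 h1
  set e : ℕ → ℕ := fun i => d + i with he
  set l := seg e b (N + 1 - b) with hl
  have ml : ∀ a, a ∈ l ↔ d + b ≤ a ∧ a < L := fun a => by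
    rw [hl, mem_seg]
    constructor
    · rintro ⟨i, hi, rfl⟩; simp only [he]; omega
    · intro h; exact ⟨a - (d + b), by omega, by simp only [he]; omega⟩
  have il : ∀ a ∈ l, Inv q Ex a := fun a ha => ExN_inv ((ml a).1 ha).2
  set h : (ℕ → Bool) → ℝ := fun σ => √(G L σ) with hh
  have gp := gap_two h0 h1 hP hk1 hk (e := e) (N := N) (b := b) (n := N + 1 - b) (by omega)
    (fun i _ j _ h => by simpa [he] using h) (fun i hi => ExN_inv (by simp only [he]; omega)) h
  have eχ : allH e 0 b = allH id d b := by simp [allH, he]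
  have eT : ∀ i, TT Ex e h 1 (i + 1) = Ds q G (d + i) L := fun i => rfl
  simp only [eχ, eT, ← hl] at gp
  set χ := allH id d b with hχ
  set c := Ex F with hc
  have c2 : |c| ≤ 2 := by
    have := hP.abs_le (f := F) (g := (2 : ℝ) • 1) fun σ => by simpa using hB σ
    rwa [lin_smul, ExN_one, mul_one] at this
  set A : (ℕ → Bool) → ℝ := F - c • 1 with hA
  have A4 : ∀ σ, |A σ| ≤ 4 := fun σ => by
    have := abs_sub (F σ) c
    simp only [hA, Pi.sub_apply, Pi.smul_apply, Pi.one_apply, smul_eq_mul, mul_one]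
    linarith [hB σ]
  have RA : EL q l A = 0 := by
    have k1 := const_of_ind (Dep_EL (q := q) hF l) fun j hj => by
      by_cases u : j < d + b
      · exact (hI j u).EL l
      · exact Ind_EL ((ml j).2 ⟨by omega, hj⟩) F
    ext σ
    have k2 : EL q l F = EL q l F σ • 1 := by ext τ; simp [k1 τ σ]
    have k3 := Ex_EL il F
    rw [k2, lin_smul, ExN_one, mul_one] at k3
    rw [hA, map_sub, map_smul, EL_one]
    simp [k3, hc]
  have iχ : ∀ a ∈ l, Ind a χ := fun a ha =>
    Ind_allH fun i hi => by have := ((ml a).1 ha).1; simp; omega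
  have z : Ex ((1 - χ) * (EL q l h * EL q l h) * A) = 0 := by
    rw [← Ex_EL il, EL_mul fun a ha =>
      ((Ind_one a).sub (iχ a ha)).mul ((Ind_EL ha h).mul (Ind_EL ha h)), RA, mul_zero, map_zero]
  have hG : h * h = G L := by ext σ; exact mul_self_sqrt (S.nn L σ)
  have r1 : Ex (EL q l h * EL q l h) ≤ 1 := by
    have a := (Proj_EL il).sub_sq h
    have b := hP.sq_nonneg (h - EL q l h)
    rw [hG, S.hone] at a
    linarith
  have e1 : ν F - c = Ex (G L * A - (1 - χ) * (EL q l h * EL q l h) * A) := by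
    rw [map_sub, z, sub_zero, hA, mul_sub, map_sub, mul_smul_comm, lin_smul, mul_one, S.hone,
      mul_one, S.rep L F hF]
  have e2 : ν χ = Ex (G L * χ) := S.rep L χ (Dep_allH (by omega))
  have key := hP.abs_le (f := G L * A - (1 - χ) * (EL q l h * EL q l h) * A)
    (g := (4 : ℝ) • (G L * χ) + (2 / η) • ((1 - χ) * ((h - EL q l h) * (h - EL q l h))) +
      (4 * η) • (G L + EL q l h * EL q l h)) fun σ => by
    have g0 := S.nn L σ
    have a4 := A4 σ
    simp only [Pi.sub_apply, Pi.mul_apply, Pi.add_apply, Pi.smul_apply, smul_eq_mul, Pi.one_apply,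
      Pi.zero_apply] at g0 ⊢
    have r2 := mul_self_nonneg (EL q l h σ)
    rcases allH_cases id d b σ with u | u
    · rw [hχ, u.1, sub_self, zero_mul, zero_mul, sub_zero, abs_mul, abs_of_nonneg g0]
      nlinarith [mul_le_mul_of_nonneg_left a4 g0, mul_nonneg e0.le (add_nonneg g0 r2)]
    · rw [hχ, u.1, ← congrFun hG σ, Pi.mul_apply]
      set x := h σ
      set y := EL q l h σ
      have w1 : x * x * A σ - (1 - 0) * (y * y) * A σ = ((x - y) * (x + y)) * A σ := by ring
      have w2 : 2 * |(x - y) * (x + y)| ≤ (x - y) * (x - y) / η + η * ((x + y) * (x + y)) := by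
        rw [abs_mul, ← abs_mul_abs_self (x - y), ← abs_mul_abs_self (x + y), ← sub_nonneg]
        have : |x - y| * |x - y| / η + η * (|x + y| * |x + y|) - 2 * (|x - y| * |x + y|) =
            (|x - y| - η * |x + y|) ^ 2 / η := by field_simp; ring
        rw [this]; positivity
      have w3 : 2 / η * ((1 - 0) * ((x - y) * (x - y))) = 2 * ((x - y) * (x - y) / η) := by ring
      rw [w1, abs_mul, w3]
      nlinarith [mul_le_mul_of_nonneg_left a4 (abs_nonneg ((x - y) * (x + y))),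
        mul_nonneg e0.le (mul_self_nonneg (x - y))]
  rw [← e1, map_add, map_add, lin_smul, lin_smul, lin_smul, map_add, S.hone, ← e2] at key
  have := mul_le_mul_of_nonneg_left gp (show 0 ≤ 2 / η by positivity)
  nlinarith

theorem Stat.far (h0 : 0 < q) (h1 : q < 1) (S : Stat q ν G) {δ : ℝ} (hδ : 0 < δ) :
    ∃ d, ∀ d', d ≤ d' → ∀ L, d' ≤ L → ∀ F, Dep L F → (∀ j < d', Ind j F) → (∀ σ, |F σ| ≤ 2) →
      |ν F - ExN q L F| ≤ δ := by
  have hp : 0 < 1 - q := by linarith
  have pp := ps_pos h0 h1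
  obtain ⟨k, hk1, hk⟩ := exists_k h0 h1
  have k0 : (0 : ℝ) < k := by exact_mod_cast hk1
  have g0 : 0 < Gam q k * (q * (1 - q)) := by unfold Gam; positivity
  obtain ⟨d, hd⟩ := S.Ds_tail h0 h1
    (show 0 < δ / 3 / (2 / (δ / 24) * (Gam q k * (q * (1 - q)))) by positivity)
  obtain ⟨b, hb⟩ := ((S.fin_zero h0 h1 d).eventually
    (gt_mem_nhds (show 0 < δ / 12 by positivity))).exists
  refine ⟨d + b + 1, fun d' hd' L hL F hF hI hB => ?_⟩
  obtain ⟨N, rfl⟩ : ∃ N, L = d + N + 1 := ⟨L - d - 1, by omega⟩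
  have a := S.far_aux h0 h1 hk1 hk (b := b) (by omega) (show 0 < δ / 24 by positivity) hF
    (fun j hj => hI j (by omega)) hB
  have c := hd N
  rw [le_div_iff₀ (by positivity)] at c
  nlinarith

end Pool.Agent.FA1f.Fr
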