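import Pool.Agent.Lib.MP_be561b_pr.Fr.Base

/-! A stationary functional gives no mass to configurations with finitely many infections. -/

namespace Pool.Agent.FA1f.Fr

open Function Finset Real Filter Topology

variable {q : ℝ} {ν : ((ℕ → Bool) → ℝ) →ₗ[ℝ] ℝ} {G : ℕ → (ℕ → Bool) → ℝ}

/-- Healing all sites from `K` on. -/
def tr (K : ℕ) (σ : ℕ → Bool) : ℕ → Bool := fun j => if j < K then σ j else true

lemma tr_cns (K : ℕ) (b : Bool) (σ : ℕ → Bool) : tr (K + 1) (cns b σ) = cns b (tr K σ) := by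
  ext j; cases j <;> simp [tr]

lemma tr_tr (K : ℕ) (σ : ℕ → Bool) : tr K (tr K σ) = tr K σ := by
  ext j; by_cases h : j < K <;> simp [tr, h]

lemma tr_update {K j : ℕ} (h : j < K) (σ : ℕ → Bool) (b : Bool) :
    tr K (update σ j b) = update (tr K σ) j b := by
  ext i; by_cases e : i = j
  · subst e; simp [tr, h]
  · simp [tr, e]

lemma tr_succ (K : ℕ) (σ : ℕ → Bool) : tr (K + 1) (update σ K true) = tr K σ := by
  ext i; by_cases e : i = K
  · subst e; simp [tr]
  · simp only [tr, update_of_ne e]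
    exact if_congr (by omega) rfl rfl

lemma tr_far {K j : ℕ} (h : K ≤ j) (σ : ℕ → Bool) : tr K σ j = true := if_neg (by omega)

lemma tr_eq {K : ℕ} {σ : ℕ → Bool} (h : ∀ j, K ≤ j → σ j = true) : tr K σ = σ := by
  ext j; by_cases e : j < K
  · simp [tr, e]
  · rw [tr_far (by omega), h j (by omega)]

lemma Dep_tr (K : ℕ) (H : (ℕ → Bool) → ℝ) : Dep K fun σ => H (tr K σ) := fun σ σ' hs => by
  have : tr K σ = tr K σ' := by
    ext j; by_cases h : j < K <;> simp [tr, h, hs j]
  simp only [this]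

lemma Dep_tr_eq {K : ℕ} {φ : (ℕ → Bool) → ℝ} (h : Dep K φ) (σ : ℕ → Bool) : φ (tr K σ) = φ σ :=
  h _ _ fun _ hj => if_pos hj

/-- The reversible weight on configurations that are healthy from `K` on. -/
noncomputable def rK (q : ℝ) (K : ℕ) : ((ℕ → Bool) → ℝ) →ₗ[ℝ] ℝ :=
  ((1 - q) ^ K)⁻¹ • (ExN q K).comp (LinearMap.funLeft ℝ ℝ (tr K))

lemma rK_apply (K : ℕ) (H : (ℕ → Bool) → ℝ) :
    rK q K H = ((1 - q) ^ K)⁻¹ * ExN q K fun σ => H (tr K σ) := rfl

lemma rK_mono (h0 : 0 < q) (h1 : q < 1) (K : ℕ) {H H' : (ℕ → Bool) → ℝ}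
    (h : ∀ σ, H (tr K σ) ≤ H' (tr K σ)) : rK q K H ≤ rK q K H' := by
  have hp : 0 < 1 - q := by linarith
  exact mul_le_mul_of_nonneg_left ((ExN_pos h0 h1).mono h) (by positivity)

lemma rK_congr (K : ℕ) {H H' : (ℕ → Bool) → ℝ} (h : ∀ σ, H (tr K σ) = H' (tr K σ)) :
    rK q K H = rK q K H' := by
  rw [rK_apply, rK_apply, funext h]

lemma rK_zr (h1 : q < 1) (K : ℕ) (H : (ℕ → Bool) → ℝ) :
    (1 - q) * rK q (K + 1) (zr 0 * H) = q * rK q K fun σ => H (cns false σ) := by
  have hp : 0 < 1 - q := by linarith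
  have e1 : (fun τ => (fun σ => (zr 0 * H : (ℕ → Bool) → ℝ) (tr (K + 1) σ)) (cns true τ)) = 0 := by
    ext τ; simp [tr_cns, zr]
  have e2 : (fun τ => (fun σ => (zr 0 * H : (ℕ → Bool) → ℝ) (tr (K + 1) σ)) (cns false τ)) =
      fun τ => H (cns false (tr K τ)) := by
    ext τ; simp [tr_cns, zr]
  rw [rK_apply, rK_apply, ExN_succ, e1, e2, map_zero]
  field_simp
  ring

lemma rK_succ (h1 : q < 1) (K : ℕ) (H : (ℕ → Bool) → ℝ) :
    rK q (K + 1) H = rK q K H + rK q (K + 1) (zr K * H) := by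
  have hp : 0 < 1 - q := by linarith
  have e1 := (ExN_inv (q := q) (n := K + 1) (Nat.lt_succ_self K)).nzr fun σ => H (tr (K + 1) σ)
  simp only [tr_succ] at e1
  rw [ExN_dep (Dep_tr K H), sub_mul, one_mul, map_sub] at e1
  have e2 : (fun σ => (zr K * H : (ℕ → Bool) → ℝ) (tr (K + 1) σ)) =
      zr K * fun σ => H (tr (K + 1) σ) := by
    ext σ; simp [zr, tr]
  rw [rK_apply, rK_apply, rK_apply, e2, eq_add_of_sub_eq e1]
  field_simp
  ring

lemma rK_lower (h0 : 0 < q) (h1 : q < 1) {s K : ℕ} (hK : s ≤ K) {H : (ℕ → Bool) → ℝ}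
    (hH : ∀ σ, 0 ≤ H σ) {τ : ℕ → Bool} (hτ : ∀ j, s ≤ j → τ j = true) :
    ps q ^ s * H τ ≤ rK q K H := by
  have hp : 0 < 1 - q := by linarith
  induction K, hK using Nat.le_induction with
  | base =>
    have a := gL_upper h0 h1 (Dep_tr s H) (fun σ => hH _) τ
    simp only [tr_eq hτ] at a
    have b : 1 ≤ ((1 - q) ^ s)⁻¹ :=
      (one_le_inv₀ (by positivity)).2 (pow_le_one₀ hp.le (by linarith))
    have c : 0 ≤ ps q ^ s * H τ := mul_nonneg (pow_pos (ps_pos h0 h1) s).le (hH τ)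
    rw [rK_apply]; nlinarith
  | succ K hK ih =>
    rw [rK_succ h1]
    have := rK_mono h0 h1 (K + 1) (H := 0) (H' := zr K * H)
      fun σ => mul_nonneg (zr_nonneg _ _) (hH _)
    rw [map_zero] at this
    linarith

lemma ExN_chi (K k : ℕ) : ∀ H : (ℕ → Bool) → ℝ, Dep (K + k) H →
    ExN q (K + k) (allH id K k * H) = (1 - q) ^ k * ExN q K fun σ => H (tr K σ) := by
  induction k with
  | zero =>
    intro H hH
    rw [allH_zero, one_mul, pow_zero, one_mul, funext (Dep_tr_eq (K := K) hH)]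
    rfl
  | succ k ih =>
    intro H hH
    have d : Dep (K + k) fun σ => H (update σ (K + k) true) := fun σ σ' hs =>
      hH _ _ fun i hi => by
        by_cases e : i = K + k
        · subst e; simp
        · rw [update_of_ne e, update_of_ne e, hs i (by omega)]
    have dχ : Dep (K + k) (allH id K k) := Dep_allH le_rfl
    have e1 := (ExN_inv (q := q) (n := K + k + 1) (Nat.lt_succ_self _)).nzr (allH id K k * H)
    have e2 : (fun η => (allH id K k * H : (ℕ → Bool) → ℝ) (update η (K + k) true)) =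
        allH id K k * fun σ => H (update σ (K + k) true) := by
      ext σ; simp only [Pi.mul_apply, dχ.ind le_rfl σ]
    have e3 : ∀ σ, update (tr K σ) (K + k) true = tr K σ := fun σ => by
      rw [← tr_far (Nat.le_add_right K k) σ, update_eq_self]
    rw [e2, ExN_dep (dχ.mul d), ih _ d] at e1
    simp only [e3] at e1
    rw [allH_succ, mul_comm (allH id K k), mul_assoc]
    exact e1.trans (by ring)

lemma tendsto_ExN {n : ℕ} {u : ℕ → (ℕ → Bool) → ℝ} {v : (ℕ → Bool) → ℝ}
    (h : ∀ σ, Tendsto (fun k => u k σ) atTop (𝓝 (v σ))) :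
    Tendsto (fun k => ExN q n (u k)) atTop (𝓝 (ExN q n v)) := by
  have : ∀ l : List ℕ, ∀ σ, Tendsto (fun k => EL q l (u k) σ) atTop (𝓝 (EL q l v σ)) := by
    intro l
    induction l with
    | nil => exact h
    | cons a l ih =>
      intro σ
      simp only [EL_cons, Module.End.mul_apply, E_apply]
      exact ((ih _).const_mul q).add ((ih _).const_mul _)
  exact this _ _

/-- Density of the atoms with respect to the reversible weight. -/
noncomputable def fl (q : ℝ) (G : ℕ → (ℕ → Bool) → ℝ) (σ : ℕ → Bool) : ℝ :=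
  max 0 (limUnder atTop fun L => (1 - q) ^ L * G L σ)

lemma fl_nonneg (σ : ℕ → Bool) : 0 ≤ fl q G σ := le_max_left _ _

lemma Stat.tendsto_fl (h0 : 0 < q) (h1 : q < 1) (S : Stat q ν G) {K : ℕ} {σ : ℕ → Bool}
    (h : ∀ j, K ≤ j → σ j = true) :
    Tendsto (fun L => (1 - q) ^ L * G L σ) atTop (𝓝 (fl q G σ)) := by
  have hp : 0 < 1 - q := by linarith
  have nn : ∀ L, 0 ≤ (1 - q) ^ L * G L σ := fun L => mul_nonneg (by positivity) (S.nn L σ)
  have a : Antitone fun k => (1 - q) ^ (k + K) * G (k + K) σ := antitone_nat_of_succ_le fun k => by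
    have e := congrFun (S.succ h0 h1 (k + K)) σ
    have u : update σ (k + K) true = σ := by rw [← h (k + K) (by omega), update_eq_self]
    rw [E_apply, u] at e
    rw [show k + 1 + K = k + K + 1 by omega, e, pow_succ, mul_assoc]
    refine mul_le_mul_of_nonneg_left ?_ (by positivity)
    have := mul_nonneg h0.le (S.nn (k + K + 1) (update σ (k + K) false))
    linarith
  have b := tendsto_atTop_ciInf a ⟨0, by rintro _ ⟨k, rfl⟩; exact nn _⟩
  have c := tendsto_nhds_limUnder
    ⟨_, (tendsto_add_atTop_iff_nat (f := fun L => (1 - q) ^ L * G L σ) K).1 b⟩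
  rw [fl, max_eq_right (ge_of_tendsto' c nn)]
  exact c

lemma Stat.tendsto_chi (h0 : 0 < q) (h1 : q < 1) (S : Stat q ν G) (K : ℕ) {n : ℕ}
    {F : (ℕ → Bool) → ℝ} (hF : Dep n F) :
    Tendsto (fun k => ν (allH id K k * F)) atTop (𝓝 (rK q K (fl q G * F))) := by
  have hp : 0 < 1 - q := by linarith
  have a := (tendsto_ExN (q := q) (n := K)
    (u := fun k σ => (1 - q) ^ (k + K) * G (k + K) (tr K σ) * F (tr K σ))
    (v := fun σ => fl q G (tr K σ) * F (tr K σ)) fun σ =>
      ((tendsto_add_atTop_iff_nat (f := fun L => (1 - q) ^ L * G L (tr K σ)) K).2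
        (S.tendsto_fl h0 h1 fun j hj => tr_far hj σ)).mul_const _).const_mul ((1 - q) ^ K)⁻¹
  refine a.congr' ?_
  filter_upwards [eventually_ge_atTop n] with k hk
  have d := hF.mono (show n ≤ K + k by omega)
  rw [S.rep (K + k) _ ((Dep_allH le_rfl).mul d), mul_left_comm, ExN_chi K k _ ((S.dep _).mul d),
    ← lin_smul, ← lin_smul]
  congr 1
  ext σ
  simp only [Pi.smul_apply, smul_eq_mul, Pi.mul_apply, add_comm k K, pow_add]
  field_simp

lemma allH_one {a k : ℕ} {σ : ℕ → Bool} (h : ∀ i < k, σ (a + i) = true) : allH id a k σ = 1 := by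
  rcases allH_cases id a k σ with c | ⟨-, i, hi, c⟩
  · exact c.1
  · rw [id, h i hi] at c; exact absurd c (by simp)

lemma allH_zero' {a k i : ℕ} {σ : ℕ → Bool} (hi : i < k) (h : σ (a + i) = false) :
    allH id a k σ = 0 := by
  rcases allH_cases id a k σ with c | c
  · have := c.2 i hi
    rw [id, h] at this; exact absurd this (by simp)
  · exact c.1

lemma allH_shf (a k : ℕ) (σ : ℕ → Bool) : allH id a k (shf σ) = allH id (a + 1) k σ := by
  rw [← allH_cns a k (σ 0) (shf σ), cns_shf]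

lemma allH_le_left (a k : ℕ) (σ : ℕ → Bool) : allH id a (k + 1) σ ≤ allH id a k σ := by
  rw [allH_succ]
  exact mul_le_of_le_one_right (allH_nonneg _ _ _ _) (sub_le_self _ (zr_nonneg _ _))

lemma allH_le_right (a k : ℕ) (σ : ℕ → Bool) : allH id a (k + 1) σ ≤ allH id (a + 1) k σ := by
  rw [allH_succ']
  exact mul_le_of_le_one_right (allH_nonneg _ _ _ _) (sub_le_self _ (zr_nonneg _ _))

lemma mid_term (h0 : 0 < q) (h1 : q < 1) {a k i : ℕ} (hi : i < k + 1) {φ : (ℕ → Bool) → ℝ}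
    (p0 : ∀ σ, 0 ≤ φ σ) (p1 : ∀ σ, φ σ ≤ 1) (σ : ℕ → Bool) :
    cF (a + 1 + i) σ * (E q (a + 1 + i) (allH id (a + 1) (k + 1) * φ) σ -
      allH id (a + 1) (k + 1) σ * φ σ) ≤
    (if i = 0 then allH id (a + 1 + 1) k σ - allH id (a + 1) (k + 1) σ else 0) +
      (if i = k then allH id (a + 1) k σ - allH id (a + 1) (k + 1) σ else 0) := by
  have hp : 0 < 1 - q := by linarith
  have A : 0 ≤ if i = 0 then allH id (a + 1 + 1) k σ - allH id (a + 1) (k + 1) σ else 0 := by
    split_ifs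
    · exact sub_nonneg.2 (allH_le_right _ _ _)
    · exact le_rfl
  have B : 0 ≤ if i = k then allH id (a + 1) k σ - allH id (a + 1) (k + 1) σ else 0 := by
    split_ifs
    · exact sub_nonneg.2 (allH_le_left _ _ _)
    · exact le_rfl
  have z : allH id (a + 1) (k + 1) (update σ (a + 1 + i) false) = 0 :=
    allH_zero' hi (update_self _ _ _)
  have c0 := cF_nonneg (a + 1 + i) σ
  have c1 := cF_le_one (a + 1 + i) σ
  simp only [E_apply, Pi.mul_apply, z, zero_mul, mul_zero, zero_add]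
  cases hs : σ (a + 1 + i)
  · rw [allH_zero' hi hs] at A B ⊢
    rcases allH_cases id (a + 1) (k + 1) (update σ (a + 1 + i) true) with c | c
    · have t : ∀ l < k + 1, l ≠ i → σ (a + 1 + l) = true := fun l hl e => by
        have := c.2 l hl
        rwa [id, update_of_ne (by omega)] at this
      have b : cF (a + 1 + i) σ * ((1 - q) * (1 * φ (update σ (a + 1 + i) true)) - 0 * φ σ) ≤ 1 := by
        have := p0 (update σ (a + 1 + i) true)
        have := p1 (update σ (a + 1 + i) true)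
        have : (1 - q) * φ (update σ (a + 1 + i) true) ≤ 1 := by nlinarith
        nlinarith
      rw [c.1]
      by_cases i0 : i = 0
      · rw [if_pos i0, allH_one fun l hl => by
          have := t (l + 1) (by omega) (by omega)
          rwa [show a + 1 + (l + 1) = a + 1 + 1 + l by omega] at this]
        linarith
      · by_cases ik : i = k
        · rw [if_pos ik, allH_one fun l hl => t l (by omega) (by omega)]
          linarith
        · have : cF (a + 1 + i) σ = 0 := by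
            have u1 := t (i - 1) (by omega) (by omega)
            have u2 := t (i + 1) (by omega) (by omega)
            rw [show a + 1 + (i - 1) = a + i by omega] at u1
            rw [cF, show a + 1 + i = a + i + 1 by omega, cns_succ, u1,
              show a + i + 1 + 1 = a + 1 + (i + 1) by omega, u2]
            simp
          rw [this]; linarith
    · rw [c.1]; linarith
  · have u : update σ (a + 1 + i) true = σ := by rw [← hs, update_eq_self]
    rw [u]
    have := mul_nonneg c0 (mul_nonneg h0.le (mul_nonneg (allH_nonneg id (a + 1) (k + 1) σ) (p0 σ)))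
    linarith

lemma LF_chi (h0 : 0 < q) (h1 : q < 1) (a k : ℕ) {φ : (ℕ → Bool) → ℝ}
    (p0 : ∀ σ, 0 ≤ φ σ) (p1 : ∀ σ, φ σ ≤ 1) (σ : ℕ → Bool) :
    LF q (a + 1 + (k + 1)) (allH id (a + 1) (k + 1) * φ) σ ≤
      (allH id (a + 1) (k + 1) * (∑ j ∈ range (a + 1), cF j * (E q j φ - φ)) +
      (allH id (a + 1 + 1) k * 1 - allH id (a + 1) (k + 1) * 1) +
      (allH id (a + 1) k * 1 - allH id (a + 1) (k + 1) * 1) +
      q • (allH id a (k + 1) * (fun σ => φ (cns false σ)) - allH id (a + 1) (k + 1) * φ) +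
      (1 - q) • (allH id (a + 1 + 1) (k + 1) * (zr 0 * fun σ => φ (shf σ)) -
        allH id (a + 1) (k + 1) * (zr 0 * φ)) : (ℕ → Bool) → ℝ) σ := by
  have s1 : ∑ j ∈ range (a + 1), cF j σ * (E q j (allH id (a + 1) (k + 1) * φ) σ -
      allH id (a + 1) (k + 1) σ * φ σ) =
      allH id (a + 1) (k + 1) σ * ∑ j ∈ range (a + 1), cF j σ * (E q j φ σ - φ σ) := by
    rw [mul_sum]
    refine sum_congr rfl fun j hj => ?_
    have : Ind j (allH id (a + 1) (k + 1)) :=
      Ind_allH fun i _ => by have := mem_range.1 hj; simp; omega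
    rw [this.E_mul, Pi.mul_apply]; ring
  have s2 := sum_le_sum fun i (hi : i ∈ range (k + 1)) =>
    mid_term h0 h1 (a := a) (mem_range.1 hi) p0 p1 σ
  rw [sum_add_distrib, sum_ite_eq', sum_ite_eq', if_pos (by simp), if_pos (by simp)] at s2
  simp only [LF, Pi.add_apply, Finset.sum_apply, Pi.mul_apply, Pi.sub_apply, Pi.smul_apply,
    smul_eq_mul, Pi.one_apply, allH_cns, allH_shf]
  rw [sum_range_add, s1]
  linarith

/-- A bounded increasing function. -/
noncomputable def Ψ (f : (ℕ → Bool) → ℝ) (σ : ℕ → Bool) : ℝ := f σ / (1 + f σ)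

lemma Psi_nonneg {f : (ℕ → Bool) → ℝ} (hf : ∀ σ, 0 ≤ f σ) (σ : ℕ → Bool) : 0 ≤ Ψ f σ :=
  div_nonneg (hf σ) (by linarith [hf σ])

lemma Psi_le_one {f : (ℕ → Bool) → ℝ} (hf : ∀ σ, 0 ≤ f σ) (σ : ℕ → Bool) : Ψ f σ ≤ 1 :=
  (div_le_one (by linarith [hf σ])).2 (by linarith)

lemma Psi_mul {f : (ℕ → Bool) → ℝ} (hf : ∀ σ, 0 ≤ f σ) (σ τ : ℕ → Bool) :
    (Ψ f σ - Ψ f τ) * (f σ - f τ) = (f σ - f τ) ^ 2 / ((1 + f σ) * (1 + f τ)) := by
  have := hf σ
  have := hf τ
  unfold Ψ
  field_simp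
  ring

lemma Psi_mul_nonneg {f : (ℕ → Bool) → ℝ} (hf : ∀ σ, 0 ≤ f σ) (σ τ : ℕ → Bool) :
    0 ≤ (Ψ f σ - Ψ f τ) * (f σ - f τ) := by
  have := hf σ
  have := hf τ
  rw [Psi_mul hf]; positivity

lemma Psi_mul_eq {f : (ℕ → Bool) → ℝ} (hf : ∀ σ, 0 ≤ f σ) {σ τ : ℕ → Bool}
    (h : (Ψ f σ - Ψ f τ) * (f σ - f τ) ≤ 0) : f σ = f τ := by
  have := hf σ
  have := hf τ
  rw [Psi_mul hf, div_le_iff₀ (by positivity), zero_mul] at h
  exact sub_eq_zero.1 (pow_eq_zero_iff two_ne_zero |>.1 (le_antisymm h (sq_nonneg _)))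

lemma rK_bulk {K j : ℕ} (hj : j < K) (f g : (ℕ → Bool) → ℝ) :
    rK q K (f * (cF j * (E q j (fun σ => g (tr K σ)) - fun σ => g (tr K σ)))) =
      -(q * (1 - q)) * rK q K (cF j * (grad j g * grad j f)) := by
  have i : Ind j fun σ => cF j (tr K σ) := fun σ b => by
    simp only [tr_update hj, Ind_cF j _ b]
  have e := (ExN_inv (q := q) hj).dirichlet i (fun σ => g (tr K σ)) fun σ => f (tr K σ)
  rw [rK_apply, rK_apply, mul_left_comm (-(q * (1 - q)))]
  refine congrArg _ ?_
  refine Eq.trans (congrArg _ ?_) (e.trans (congrArg _ (congrArg _ ?_)))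
  · ext σ
    simp only [Pi.mul_apply, Pi.sub_apply, E_apply, tr_update hj, tr_tr]
  · ext σ
    simp only [Pi.mul_apply, grad, tr_update hj]

lemma Stat.energy (h0 : 0 < q) (h1 : q < 1) (S : Stat q ν G) (a : ℕ) :
    q * (1 - q) * rK q (a + 1) (grad 0 (Ψ (fl q G)) * grad 0 (fl q G)) +
      q * rK q a (fun σ => (Ψ (fl q G) (cns false σ) - Ψ (fl q G) σ) *
        (fl q G (cns false σ) - fl q G σ)) ≤
      2 * (rK q (a + 1 + 1) (fl q G) - rK q (a + 1) (fl q G)) := by
  have hp : 0 < 1 - q := by linarith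
  set f := fl q G with hf
  have f0 : ∀ σ, 0 ≤ f σ := fl_nonneg
  set φ : (ℕ → Bool) → ℝ := fun σ => Ψ f (tr (a + 1) σ) with hφ
  have dφ : Dep (a + 1) φ := Dep_tr _ _
  have dφ2 : Dep (a + 1 + 1) φ := dφ.mono (by omega)
  set B : (ℕ → Bool) → ℝ := ∑ j ∈ range (a + 1), cF j * (E q j φ - φ) with hB
  have dB : Dep (a + 1 + 1) B := Dep_sum fun j hj =>
    ((Dep_cF j).mono (by have := mem_range.1 hj; omega)).mul ((dφ2.E q j).sub dφ2)
  have d1 := Dep_one 0
  have dz : Dep (a + 1 + 1) (zr 0 * fun σ => φ (shf σ)) := (Dep_zr (by omega)).mul dφ.shf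
  have dz' : Dep (a + 1) (zr 0 * φ) := (Dep_zr (by omega)).mul dφ
  have T := fun (K : ℕ) {n : ℕ} {F : (ℕ → Bool) → ℝ} (hF : Dep n F) =>
    (tendsto_add_atTop_iff_nat (f := fun k => ν (allH id K k * F)) 1).2 (S.tendsto_chi h0 h1 K hF)
  have lim := ((((T (a + 1) dB).add ((S.tendsto_chi h0 h1 (a + 1 + 1) d1).sub (T (a + 1) d1))).add
    ((S.tendsto_chi h0 h1 (a + 1) d1).sub (T (a + 1) d1))).add
    (((T a (dφ.cns false)).sub (T (a + 1) dφ)).const_mul q)).add
    (((T (a + 1 + 1) dz).sub (T (a + 1) dz')).const_mul (1 - q))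
  have key := ge_of_tendsto' lim (b := 0) fun k => by
    have dψ : Dep (a + 1 + (k + 1)) (allH id (a + 1) (k + 1) * φ) :=
      (Dep_allH le_rfl).mul (dφ.mono (by omega))
    have c : ∀ {x y n : ℕ} {F : (ℕ → Bool) → ℝ}, Dep n F → x + y ≤ a + 1 + (k + 1) + 1 →
        n ≤ a + 1 + 1 → Dep (a + 1 + (k + 1) + 1) (allH id x y * F) :=
      fun hF u v => (Dep_allH u).mul (hF.mono (by omega))
    have := S.mono h0 h1 (Dep_LF dψ) (((((c dB (by omega) le_rfl).add
      ((c d1 (by omega) (by omega)).sub (c d1 (by omega) (by omega)))).add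
      ((c d1 (by omega) (by omega)).sub (c d1 (by omega) (by omega)))).add
      (((c (dφ.cns false) (by omega) (by omega)).sub (c dφ (by omega) (by omega))).smul q)).add
      (((c dz (by omega) le_rfl).sub (c dz' (by omega) (by omega))).smul (1 - q)))
      (LF_chi h0 h1 a k (fun σ => Psi_nonneg f0 _) fun σ => Psi_le_one f0 _)
    rw [S.inv _ _ dψ] at this
    simpa only [map_add, map_sub, lin_smul] using this
  rw [← hf, mul_one] at key
  have b1 : rK q (a + 1) (f * B) ≤
      -(q * (1 - q)) * rK q (a + 1) (grad 0 (Ψ f) * grad 0 f) := by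
    rw [hB, mul_sum, map_sum, sum_range_succ', rK_bulk (Nat.succ_pos a), cF_zero, one_mul]
    refine add_le_of_nonpos_left (sum_nonpos fun j hj => ?_)
    rw [rK_bulk (by have := mem_range.1 hj; omega)]
    have := rK_mono h0 h1 (a + 1) (H := 0) (H' := cF (j + 1) * (grad (j + 1) (Ψ f) * grad (j + 1) f))
      fun σ => mul_nonneg (cF_nonneg _ _) (Psi_mul_nonneg f0 _ _)
    rw [map_zero] at this
    nlinarith [mul_nonneg (mul_pos h0 hp).le this]
  have b2 : rK q a (f * fun σ => φ (cns false σ)) = rK q a (f * fun σ => Ψ f (cns false σ)) :=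
    rK_congr a fun σ => by simp only [Pi.mul_apply, hφ, tr_cns, tr_tr]
  have b3 : rK q a (f * Ψ f) ≤ rK q (a + 1) (f * φ) := by
    have e : rK q (a + 1) (f * φ) = rK q (a + 1) (f * Ψ f) :=
      rK_congr _ fun σ => by simp only [Pi.mul_apply, hφ, tr_tr]
    have := rK_mono h0 h1 (a + 1) (H := 0) (H' := zr a * (f * Ψ f))
      fun σ => mul_nonneg (zr_nonneg _ _) (mul_nonneg (f0 _) (Psi_nonneg f0 _))
    rw [map_zero] at this
    rw [e, rK_succ h1]; linarith
  have b4 : (1 - q) * rK q (a + 1) (f * (zr 0 * φ)) =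
      q * rK q a ((fun σ => f (cns false σ)) * fun σ => Ψ f (cns false σ)) := by
    rw [mul_left_comm f, rK_zr h1]
    congr 1
    exact rK_congr a fun σ => by simp only [Pi.mul_apply, hφ, tr_cns, tr_tr]
  have b5 : (1 - q) * rK q (a + 1 + 1) (f * (zr 0 * fun σ => φ (shf σ))) ≤
      q * rK q a ((fun σ => f (cns false σ)) * Ψ f) +
      (rK q (a + 1 + 1) f - rK q (a + 1) f) := by
    have e : rK q (a + 1) (fun σ => (f * fun σ => φ (shf σ) : (ℕ → Bool) → ℝ) (cns false σ)) =
        rK q (a + 1) ((fun σ => f (cns false σ)) * Ψ f) :=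
      rK_congr _ fun σ => by simp only [Pi.mul_apply, hφ, shf_cns, tr_tr]
    have u1 := rK_mono h0 h1 (a + 1) (H := zr a * ((fun σ => f (cns false σ)) * Ψ f))
      (H' := fun σ => (zr (a + 1) * f : (ℕ → Bool) → ℝ) (cns false σ)) fun σ =>
        mul_le_mul_of_nonneg_left (mul_le_of_le_one_right (f0 _) (Psi_le_one f0 _)) (zr_nonneg _ _)
    have u2 := rK_zr h1 (a + 1) (zr (a + 1) * f)
    have u3 := rK_mono h0 h1 (a + 1 + 1) (H := (1 - q) • (zr 0 * (zr (a + 1) * f)))
      (H' := zr (a + 1) * f) fun σ => by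
        have x := mul_nonneg (zr_nonneg (a + 1) (tr (a + 1 + 1) σ)) (f0 (tr (a + 1 + 1) σ))
        have y := mul_le_of_le_one_left x (zr_le_one 0 (tr (a + 1 + 1) σ))
        have z := mul_nonneg (zr_nonneg 0 (tr (a + 1 + 1) σ)) x
        simp only [Pi.smul_apply, Pi.mul_apply, smul_eq_mul]
        nlinarith
    rw [lin_smul] at u3
    have u4 := rK_succ h1 (a + 1) f
    rw [mul_left_comm f, rK_zr h1, e, rK_succ h1]
    nlinarith [mul_le_mul_of_nonneg_left u1 h0.le]
  have b6 : rK q a (fun σ => (Ψ f (cns false σ) - Ψ f σ) * (f (cns false σ) - f σ)) =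
      rK q a ((fun σ => f (cns false σ)) * fun σ => Ψ f (cns false σ)) -
      rK q a (f * fun σ => Ψ f (cns false σ)) - rK q a ((fun σ => f (cns false σ)) * Ψ f) +
      rK q a (f * Ψ f) := by
    rw [← map_sub, ← map_sub, ← map_add]
    congr 1
    ext σ
    simp only [Pi.mul_apply, Pi.sub_apply, Pi.add_apply]; ring
  rw [b6]
  rw [b2] at key
  nlinarith [mul_le_mul_of_nonneg_left b3 h0.le]

theorem Stat.fin_zero (h0 : 0 < q) (h1 : q < 1) (S : Stat q ν G) (K : ℕ) :
    Tendsto (fun k => ν (allH id K k)) atTop (𝓝 0) := by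
  have hp : 0 < 1 - q := by linarith
  have pp := ps_pos h0 h1
  set f := fl q G with hf
  have f0 : ∀ σ, 0 ≤ f σ := fl_nonneg
  have U1 : ∀ K, rK q K f ≤ 1 := fun K => by
    have := S.tendsto_chi h0 h1 K (Dep_one 0)
    simp only [mul_one] at this
    exact le_of_tendsto' this fun k => S.le_const h0 h1 (Dep_allH le_rfl) (allH_le_one _ _ _)
  have Um : Monotone fun K => rK q K f := monotone_nat_of_le_succ fun K => by
    have := rK_mono h0 h1 (K + 1) (H := 0) (H' := zr K * f)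
      fun σ => mul_nonneg (zr_nonneg _ _) (f0 _)
    rw [map_zero] at this
    rw [rK_succ h1]; linarith
  have Ut := tendsto_atTop_ciSup Um ⟨1, by rintro _ ⟨K, rfl⟩; exact U1 K⟩
  have Ud := (((tendsto_add_atTop_iff_nat (f := fun K => rK q K f) (1 + 1)).2 Ut).sub
    ((tendsto_add_atTop_iff_nat (f := fun K => rK q K f) 1).2 Ut)).const_mul 2
  rw [sub_self, mul_zero] at Ud
  have A : ∀ s τ, (∀ j, s ≤ j → τ j = true) →
      f (cns false τ) = f τ ∧ f (update τ 0 true) = f (update τ 0 false) := fun s τ hτ => by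
    have x1 : 0 ≤ (grad 0 (Ψ f) * grad 0 f : (ℕ → Bool) → ℝ) τ := Psi_mul_nonneg f0 _ _
    have x2 := Psi_mul_nonneg f0 (cns false τ) τ
    have := ge_of_tendsto Ud (b := q * (1 - q) * (ps q ^ s *
        (grad 0 (Ψ f) * grad 0 f : (ℕ → Bool) → ℝ) τ) +
        q * (ps q ^ s * ((Ψ f (cns false τ) - Ψ f τ) * (f (cns false τ) - f τ)))) (by
      filter_upwards [eventually_ge_atTop s] with a ha
      refine le_trans (add_le_add ?_ ?_) (S.energy h0 h1 a)
      · exact mul_le_mul_of_nonneg_left (rK_lower h0 h1 (by omega)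
          (H := grad 0 (Ψ f) * grad 0 f) (fun σ => Psi_mul_nonneg f0 _ _) hτ) (mul_pos h0 hp).le
      · exact mul_le_mul_of_nonneg_left (rK_lower h0 h1 ha
          (H := fun σ => (Ψ f (cns false σ) - Ψ f σ) * (f (cns false σ) - f σ))
          (fun σ => Psi_mul_nonneg f0 _ _) hτ) h0.le)
    have y1 := mul_nonneg (mul_pos h0 hp).le (mul_nonneg (pow_pos pp s).le x1)
    have y2 := mul_nonneg h0.le (mul_nonneg (pow_pos pp s).le x2)
    refine ⟨Psi_mul_eq f0 ?_, Psi_mul_eq f0 ?_⟩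
    · exact le_of_mul_le_mul_left (a := q * ps q ^ s) (by linarith) (by positivity)
    · refine le_of_mul_le_mul_left (a := q * (1 - q) * ps q ^ s) ?_ (by positivity)
      simp only [Pi.mul_apply, grad] at this
      linarith
  have B : ∀ s τ, (∀ j, s ≤ j → τ j = true) → f τ = f fun _ => true := by
    intro s
    induction s with
    | zero => intro τ hτ; rw [funext fun j => hτ j (Nat.zero_le j)]
    | succ s ih =>
      intro τ hτ
      have hs : ∀ j, s ≤ j → shf τ j = true := fun j hj => hτ (j + 1) (by omega)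
      have a1 := (A s _ hs).1
      have a2 := (A (s + 1) τ hτ).2
      have e : ∀ b, update τ 0 b = cns b (shf τ) := fun b => by
        conv_lhs => rw [← cns_shf τ, update_cns_zero]
      rw [e, e] at a2
      rw [← ih _ hs, ← cns_shf τ, shf_cns]
      cases τ 0
      · exact a1
      · exact a2.trans a1
  have C : ∀ K, rK q K f = ((1 - q) ^ K)⁻¹ * f fun _ => true := fun K => by
    have : (fun σ => f (tr K σ)) = (f fun _ => true) • 1 := by
      ext σ; simp [B K _ fun j hj => tr_far hj σ]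
    rw [rK_apply, this, lin_smul, ExN_one, mul_one]
  have D : (f fun _ => true) = 0 := by
    refine le_antisymm (ge_of_tendsto' (tendsto_pow_atTop_nhds_zero_of_lt_one hp.le
      (by linarith : 1 - q < 1)) fun K => ?_) (f0 _)
    have := U1 K
    rwa [C, inv_mul_le_iff₀ (by positivity), mul_one] at this
  have := S.tendsto_chi h0 h1 K (Dep_one 0)
  simp only [mul_one] at this
  rwa [← hf, C, D, mul_zero] at this

end Pool.Agent.FA1f.Fr
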