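import Pool.Agent.Lib.MP_be561b_pr.Fr.Dev

/-! Exponential concentration of the front on the line. -/

namespace Pool.Agent.FA1f.Fr

open Function Finset Real Filter Topology MeasureTheory

variable {q : ℝ}

/-- Position of the first infection in a window. -/
noncomputable def YL (K : ℕ) (η : ℤ → Bool) : ℕ :=
  sInf {i : ℕ | η ((i : ℤ) - K) = false ∨ 2 * K ≤ i}

lemma locR_YL (K : ℕ) (g : ℕ → ℝ) : LocR K fun η => g (YL K η) := fun η η' hs => by
  have : YL K η = YL K η' := by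
    unfold YL
    congr 1
    ext i
    by_cases h : 2 * K ≤ i
    · simp [h]
    · simp only [Set.mem_ofPred_eq, hs ((i : ℤ) - K) (by omega)]
  simp only [this]

lemma YL_lift {m : ℕ} (K : ℕ) (ζ : ZMod m → Bool) :
    YL K (lift ζ) = YF (fun i : ℕ => ((-(K : ℤ) - 1 : ℤ) : ZMod m) + (i : ZMod m)) K ζ := by
  unfold YL YF
  congr 1
  ext i
  have : (((i : ℤ) - K : ℤ) : ZMod m) = ((-(K : ℤ) - 1 : ℤ) : ZMod m) + ((i + 1 : ℕ) : ZMod m) := by
    push_cast; ring
  simp only [Set.mem_ofPred_eq, lift, this]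

lemma tendsto_rem {θ : ℝ} (t1 : θ ≤ 1 / 2) (c d : ℝ) :
    Tendsto (fun K : ℕ => (c * K + d) * exp (θ * K) / 2 ^ K) atTop (𝓝 0) := by
  have eh : exp θ < 2 := by
    have := Real.exp_one_lt_d9
    have e2 : exp (1 / 2) * exp (1 / 2) = exp 1 := by rw [← exp_add]; norm_num
    have := exp_le_exp.2 t1
    nlinarith [exp_pos (1 / 2)]
  have r0 : 0 ≤ exp θ / 2 := by positivity
  have r1 : exp θ / 2 < 1 := by linarith
  have a := ((tendsto_self_mul_const_pow_of_lt_one r0 r1).const_mul c).add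
    ((tendsto_pow_atTop_nhds_zero_of_lt_one r0 r1).const_mul d)
  rw [mul_zero, mul_zero, add_zero] at a
  refine a.congr fun K => ?_
  rw [mul_comm θ, exp_nat_mul, div_pow]; ring

lemma dev_line (h0 : 0 < q) (h1 : q < 1) {v ε s : ℝ} (e0 : 0 < ε) (hs : s = 1 ∨ s = -1) {N : ℕ}
    {ψ : (ℕ → Bool) → ℝ} (dψ : Dep N ψ) (hψ : ∀ σ, -s * vF q σ + LF q N ψ σ ≤ -s * v + ε / 4) :
    ∃ C c : ℝ, 0 < C ∧ 0 < c ∧ ∀ t, 0 ≤ t → ∃ r : ℕ → ℝ, Tendsto r atTop (𝓝 0) ∧
      ∀ (ν : Measure (ℤ → Bool)) [IsProbabilityMeasure ν],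
        (∀ᵐ η ∂ν, η 0 = false ∧ ∀ y < 0, η y = true) → ∀ μ, IsLaw q ν μ → ∀ K : ℕ, 1 ≤ K →
        ∫ η, (if ε * t - s * v * t < s * ((YL K η : ℝ) - K) then (1 : ℝ) else 0) ∂μ t ≤
          C * exp (-c * t) + r K := by
  obtain ⟨M, M0, hM⟩ := Dep_bdd dψ
  set θ := min (min (1 / 2) (1 / (1 + 2 * M))) (ε / 4 / ((N + 2) * (1 + 2 * M) ^ 2)) with hθ
  have t0 : 0 < θ := lt_min (lt_min (by norm_num) (by positivity)) (by positivity)
  have t1 : θ ≤ 1 / 2 := (min_le_left _ _).trans (min_le_left _ _)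
  have tB : θ * (1 + 2 * M) ≤ 1 := by
    rw [← le_div_iff₀ (by positivity)]; exact (min_le_left _ _).trans (min_le_right _ _)
  have t3 : θ * ((N + 2) * (1 + 2 * M) ^ 2) ≤ ε / 4 := by
    rw [← le_div_iff₀ (by positivity)]; exact min_le_right _ _
  set a := θ * (-s * v + ε / 2) with ha
  have hA : ∀ σ, θ * (-s * vF q σ + LF q N ψ σ) + (N + 2) * (θ ^ 2 * (1 + 2 * M) ^ 2) ≤ a :=
    fun σ => by
      nlinarith [mul_le_mul_of_nonneg_left (hψ σ) t0.le, mul_le_mul_of_nonneg_left t3 t0.le]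
  have s1 : |s| ≤ 1 := by rcases hs with rfl | rfl <;> simp
  refine ⟨exp (2 * θ * M), θ * ε / 2, exp_pos _, by positivity, fun t ht => ?_⟩
  set w := ε * t - s * v * t with hw
  set Z := exp (θ * (M - w)) * exp (a * t) * exp (θ * M) * (2 * exp (2 * t)) * exp (|a| * t) * t
    with hZ
  refine ⟨fun K => Z * ((4 * K + (2 * N + 4 + |a|)) * exp (θ * K) / 2 ^ K),
    by simpa using (tendsto_rem t1 4 (2 * N + 4 + |a|)).const_mul Z, fun ν _ hν μ hμ K hK => ?_⟩
  refine le_of_tendsto (law_tendsto h0 h1 hμ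
    (locR_YL K fun y => if w < s * ((y : ℝ) - K) then (1 : ℝ) else 0).isLocal ht) ?_
  filter_upwards [eventually_ge_atTop (2 * K + N + 4)] with D hD
  refine le_of_le_of_eq (integral_mono_ae ((locR_wrap _).isLocal.integrable ν)
    (integrable_const _) ?_) (by rw [integral_const, probReal_univ, one_smul])
  filter_upwards [hν] with η hη
  simp only [YL_lift]
  refine (dev_torus h0 h1 dψ hM s1 t0 tB hA hK (by omega) _ ?_ (fun i hi => ?_) ht w).trans_eq ?_
  · rw [← hη.1, ← wrap_cast (m := 2 * (D + 1)) η (by omega)]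
    congr 1; push_cast; ring
  · rw [← Int.cast_add, wrap_cast η (by omega)]
    exact hη.2 _ (by omega)
  · have e : exp (θ * (M - w)) * exp (a * t) * exp (θ * M) =
        exp (2 * θ * M) * exp (-(θ * ε / 2) * t) := by
      simp only [← exp_add]
      congr 1
      rw [hw, ha]; ring
    rw [← e, hZ, mul_add θ, exp_add]; ring

lemma eventually_dev {η : ℤ → Bool} {u w : ℝ}
    (h : ¬ ∃ x : ℤ, η x = false ∧ (∀ y < x, η y = true) ∧ |x + u| ≤ w) :
    ∃ K0 : ℕ, ∀ K ≥ K0, w < |(YL K η : ℝ) - K + u| := by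
  obtain ⟨b, hb⟩ := exists_nat_gt (|w| + |u|)
  have w1 := le_abs_self w
  have u1 := le_abs_self u
  have u2 := neg_abs_le u
  by_cases c : ∃ y : ℤ, y ≤ -b ∧ η y = false
  · obtain ⟨y, y1, y2⟩ := c
    refine ⟨y.natAbs, fun K hK => ?_⟩
    have a : YL K η ≤ (y + K).toNat := Nat.sInf_le (Or.inl (by
      rw [← y2]; congr 1; omega))
    have a2 : (YL K η : ℤ) - K ≤ -b := by omega
    have a3 : (YL K η : ℝ) - K ≤ -b := by exact_mod_cast a2
    exact lt_of_lt_of_le (by linarith) (neg_le_abs _)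
  · push Not at c
    refine ⟨b + 1, fun K hK => ?_⟩
    by_contra hc
    push Not at hc
    have a := abs_le.1 hc
    have a1 : (YL K η : ℝ) - K < b := by linarith
    have a2 : (YL K η : ℤ) - K < b := by exact_mod_cast a1
    have mem : η ((YL K η : ℤ) - K) = false ∨ 2 * K ≤ YL K η :=
      Nat.sInf_mem (s := {i : ℕ | η ((i : ℤ) - K) = false ∨ 2 * K ≤ i}) ⟨2 * K, Or.inr le_rfl⟩
    refine h ⟨(YL K η : ℤ) - K, mem.resolve_right (by omega), fun y hy => ?_, by exact_mod_cast hc⟩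
    by_contra hy2
    have y2 : η y = false := by simpa using hy2
    by_cases y1 : y ≤ -b
    · exact c y y1 y2
    · have : YL K η ≤ (y + K).toNat := Nat.sInf_le (Or.inl (by
        rw [← y2]; congr 1; omega))
      omega

theorem front_lln (h0 : 0 < q) (h1 : q < 1) : ∃ v > 0, ∀ ε > 0, ∃ C c : ℝ, 0 < C ∧ 0 < c ∧
    ∀ (ν : Measure (ℤ → Bool)) [IsProbabilityMeasure ν],
      (∀ᵐ η ∂ν, η 0 = false ∧ ∀ y < 0, η y = true) → ∀ μ, IsLaw q ν μ → ∀ t, 0 ≤ t →
        (μ t).real {η | ¬ ∃ x : ℤ, η x = false ∧ (∀ y < x, η y = true) ∧ |x + v * t| ≤ ε * t} ≤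
          C * exp (-c * t) := by
  obtain ⟨v, v0, H⟩ := corrector h0 h1
  refine ⟨v, v0, fun ε e0 => ?_⟩
  obtain ⟨N, ψ, d, h⟩ := H (ε / 4) (by positivity) 1 (Or.inl rfl)
  obtain ⟨N', ψ', d', h'⟩ := H (ε / 4) (by positivity) (-1) (Or.inr rfl)
  obtain ⟨C, c, C0, c0, A⟩ := dev_line h0 h1 e0 (Or.inl rfl) d h
  obtain ⟨C', c', C0', c0', A'⟩ := dev_line h0 h1 e0 (Or.inr rfl) d' h'
  refine ⟨C + C', min c c', by positivity, lt_min c0 c0', fun ν _ hν μ hμ t ht => ?_⟩
  obtain ⟨r, r0, R⟩ := A t ht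
  obtain ⟨r', r0', R'⟩ := A' t ht
  have := hμ.1 t ht
  set B : ℕ → Set (ℤ → Bool) := fun K => {η | ε * t < |(YL K η : ℝ) - K + v * t|} with hB
  have b : ∀ K, 1 ≤ K → (μ t).real (B K) ≤ (C + C') * exp (-min c c' * t) + (r K + r' K) := by
    intro K hK
    have i1 := (locR_YL K fun y =>
      if ε * t - 1 * v * t < 1 * ((y : ℝ) - K) then (1 : ℝ) else 0).isLocal.integrable (μ t)
    have i2 := (locR_YL K fun y =>
      if ε * t - -1 * v * t < -1 * ((y : ℝ) - K) then (1 : ℝ) else 0).isLocal.integrable (μ t)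
    have m := mul_meas_ge_le_integral_of_nonneg (Eventually.of_forall fun η => by
      simp only [Pi.add_apply, Pi.zero_apply]
      split_ifs <;> norm_num) (i1.add i2) 1
    rw [integral_add' i1 i2, one_mul] at m
    have x1 : exp (-c * t) ≤ exp (-min c c' * t) :=
      exp_le_exp.2 (by nlinarith [min_le_left c c'])
    have x2 : exp (-c' * t) ≤ exp (-min c c' * t) :=
      exp_le_exp.2 (by nlinarith [min_le_right c c'])
    refine (measureReal_mono fun η hη => ?_).trans (m.trans ?_)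
    · simp only [hB, Set.mem_ofPred_eq, Pi.add_apply] at hη ⊢
      rcases lt_abs.1 hη with u | u
      · rw [if_pos (by linarith)]; split_ifs <;> norm_num
      · rw [if_pos (c := ε * t - -1 * v * t < _) (by linarith)]; split_ifs <;> norm_num
    · linarith [R ν hν μ hμ K hK, R' ν hν μ hμ K hK, mul_le_mul_of_nonneg_left x1 C0.le,
        mul_le_mul_of_nonneg_left x2 C0'.le]
  refine ENNReal.toReal_le_of_le_ofReal (by positivity) ?_
  refine (measure_mono (t := ⋃ K0 : ℕ, {η | ∀ K ≥ K0, η ∈ B K}) fun η hη =>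
    Set.mem_iUnion.2 (eventually_dev hη)).trans ?_
  rw [Monotone.measure_iUnion (s := fun K0 : ℕ => {η | ∀ K ≥ K0, η ∈ B K})
    fun a b hab η hη K hK => hη K (hab.trans hK)]
  refine iSup_le fun K0 => ?_
  rw [← ofReal_measureReal]
  refine ENNReal.ofReal_le_ofReal ?_
  have lim := (r0.add r0').const_add ((C + C') * exp (-min c c' * t))
  rw [add_zero, add_zero] at lim
  refine ge_of_tendsto lim ?_
  filter_upwards [eventually_ge_atTop (K0 + 1)] with K hK
  exact (measureReal_mono (s₁ := {η | ∀ K ≥ K0, η ∈ B K}) fun η hη => hη K (by omega)).trans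
    (b K (by omega))

end Pool.Agent.FA1f.Fr
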