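import Pool.Agent.Lib.MP_be561b_pr.Fr.Far

/-! Uniqueness of the stationary functional in the frame of the front. -/

namespace Pool.Agent.FA1f.Fr

open Function Finset Real Filter Topology

variable {q : ℝ} {ν ν1 : ((ℕ → Bool) → ℝ) →ₗ[ℝ] ℝ} {G G1 : ℕ → (ℕ → Bool) → ℝ}

lemma ratio_le {g0 g1 y : ℝ} (a0 : 0 < g0) (a1 : 0 < g1) (hy : 1 ≤ y) :
    g1 ≤ exp y * g0 + 2 / y * ((log g1 - log g0) * (g1 - g0)) := by
  have y0 : 0 < y := by linarith
  have ψ := log_mono_mul a1 a0
  have e2 : 2 ≤ exp y := by linarith [add_one_le_exp y]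
  rcases le_total g1 (exp y * g0) with h | h
  · have : 0 ≤ 2 / y * ((log g1 - log g0) * (g1 - g0)) := by rw [mul_comm (log g1 - _)]; positivity
    linarith
  · have l := log_le_log (by positivity) h
    rw [log_mul (exp_pos y).ne' a0.ne', log_exp] at l
    have b : g1 / 2 ≤ g1 - g0 := by nlinarith
    have c : y * (g1 / 2) ≤ (log g1 - log g0) * (g1 - g0) :=
      mul_le_mul (by linarith) b (by positivity) (by linarith)
    have d : g1 = 2 / y * (y * (g1 / 2)) := by field_simp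
    have := mul_le_mul_of_nonneg_left c (show 0 ≤ 2 / y by positivity)
    nlinarith [mul_pos (exp_pos y) a0]

lemma Stat.flip (h0 : 0 < q) (h1 : q < 1) (S : Stat q ν G) {k l : ℕ} (hk : k < l) {y : ℝ}
    (hy : 1 ≤ y) {w : (ℕ → Bool) → ℝ} (dw : Dep (l + 1) w) (iw : Ind k w) (w0 : ∀ σ, 0 ≤ w σ)
    (w1 : ∀ σ, w σ ≤ cF k σ) :
    ν w ≤ (1 + exp y / q) * ν (zr k * w) + 2 / y * Dl q G k l := by
  have hI : Inv q (ExN q (l + 1 + 1)) k := ExN_inv (by omega)
  have dz : Dep (l + 1) (zr k * w) := (Dep_zr (by omega)).mul dw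
  rw [S.rep _ _ dw, S.rep _ _ dz, ← ExN_dep ((S.dep _).mul dw), ← ExN_dep ((S.dep _).mul dz),
    mul_left_comm (G (l + 1)), hI.zr, ← hI (G (l + 1) * w), Dl, ← mul_assoc, ← lin_smul,
    ← lin_smul, ← map_add]
  refine (ExN_pos h0 h1).mono fun σ => ?_
  have a0 := S.pos h0 h1 (l + 1) (update σ k false)
  have a1 := S.pos h0 h1 (l + 1) (update σ k true)
  have r := ratio_le a0 a1 hy
  have ψ := log_mono_mul a1 a0
  have e : (1 + exp y / q) * q = q + exp y := by field_simp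
  simp only [E_apply, Pi.mul_apply, Pi.add_apply, Pi.smul_apply, smul_eq_mul, grad, iw σ, e]
  have y0 : 0 ≤ 2 / y := by have : 0 < y := by linarith
                            positivity
  nlinarith [mul_le_mul_of_nonneg_left r (w0 σ), mul_nonneg (mul_pos h0 a1).le (w0 σ),
    mul_nonneg (mul_nonneg y0 ψ) (sub_nonneg.2 (w1 σ))]

/-- Infecting the first `k` sites. -/
def Uz (k : ℕ) (σ : ℕ → Bool) : ℕ → Bool := fun j => if j < k then false else σ j

/-- Indicator that the first `k` sites are infected. -/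
def Zz : ℕ → (ℕ → Bool) → ℝ
  | 0 => 1
  | k + 1 => Zz k * zr k

lemma Uz_zero (σ : ℕ → Bool) : Uz 0 σ = σ := by ext j; simp [Uz]

lemma Uz_succ (k : ℕ) (σ : ℕ → Bool) : Uz (k + 1) σ = update (Uz k σ) k false := by
  ext j; by_cases e : j = k
  · subst e; simp [Uz]
  · simp only [Uz, update_of_ne e]
    exact if_congr (by omega) rfl rfl

lemma Dep_Uz {L : ℕ} {h : (ℕ → Bool) → ℝ} (d : Dep L h) (k : ℕ) : Dep L fun σ => h (Uz k σ) :=
  fun σ σ' hs => d _ _ fun j hj => by simp only [Uz, hs j hj]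

lemma Ind_Uz (h : (ℕ → Bool) → ℝ) {k j : ℕ} (hj : j < k) : Ind j fun σ => h (Uz k σ) :=
  fun σ b => by
    have : Uz k (update σ j b) = Uz k σ := by
      ext i; by_cases e : i = j
      · subst e; simp [Uz, hj]
      · simp only [Uz, update_of_ne e]
    simp only [this]

lemma Dep_Zz (k : ℕ) : Dep k (Zz k) := by
  induction k with
  | zero => exact Dep_one 0
  | succ k ih => exact (ih.mono (by omega)).mul (Dep_zr (by omega))

lemma Zz_nonneg (k : ℕ) (σ : ℕ → Bool) : 0 ≤ Zz k σ := by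
  induction k with
  | zero => exact zero_le_one
  | succ k ih => exact mul_nonneg ih (zr_nonneg _ _)

lemma Zz_le (k : ℕ) (σ : ℕ → Bool) : Zz k σ ≤ cF k σ := by
  induction k with
  | zero => rw [cF_zero]; exact le_rfl
  | succ k ih =>
    exact (mul_le_of_le_one_left (zr_nonneg _ _) (ih.trans (cF_le_one _ _))).trans (zr_le_cF _ _)

lemma Stat.ac (h0 : 0 < q) (h1 : q < 1) (S : Stat q ν G) (k : ℕ) : ∀ η > 0, ∃ A > 0, ∀ l, k ≤ l →
    ∀ h : (ℕ → Bool) → ℝ, Dep (l + 1) h → (∀ σ, 0 ≤ h σ) → (∀ σ, h σ ≤ 1) →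
      ν (fun σ => h (Uz k σ)) ≤ A * ν (Zz k * h) + η := by
  obtain ⟨C, C0, hC⟩ := S.Dl_sum h0 h1
  induction k with
  | zero =>
    intro η e0
    refine ⟨1, one_pos, fun l _ h _ _ _ => ?_⟩
    simp only [Uz_zero, Zz, one_mul]
    exact le_add_of_nonneg_right e0.le
  | succ k ih =>
    intro η e0
    obtain ⟨A, A0, H⟩ := ih (η / 2) (by positivity)
    set y := 1 + 4 * A * C / η with hy
    have y1 : 1 ≤ y := le_add_of_nonneg_right (by positivity)
    refine ⟨A * (1 + exp y / q), by positivity, fun l hl h dh p0 p1 => ?_⟩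
    have a := H l (by omega) _ (dh.update k false) (fun σ => p0 _) fun σ => p1 _
    have b := S.flip h0 h1 (k := k) (l := l) (by omega) y1
      (w := Zz k * fun σ => h (update σ k false))
      (((Dep_Zz k).mono (by omega)).mul (dh.update k false))
      (((Dep_Zz k).ind le_rfl).mul fun σ b => by simp only [update_idem])
      (fun σ => mul_nonneg (Zz_nonneg _ _) (p0 _))
      fun σ => (mul_le_of_le_one_right (Zz_nonneg _ _) (p1 _)).trans (Zz_le _ _)
    have e : zr k * (Zz k * fun σ => h (update σ k false)) = Zz (k + 1) * h := by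
      ext σ
      simp only [Pi.mul_apply, Zz, zr]
      cases hs : σ k
      · rw [← hs, update_eq_self]; ring
      · simp
    have c : Dl q G k l ≤ C := (single_le_sum (f := fun j => Dl q G j l)
      (fun j _ => S.Dl_nonneg h0 h1 j l) (mem_range.2 (by omega))).trans (hC l)
    have d : A * (2 / y * C) ≤ η / 2 := by
      have y0 : 0 < y := by linarith
      have : 4 * A * C ≤ y * η := by
        rw [hy, add_mul, div_mul_cancel₀ _ e0.ne']; linarith
      rw [show A * (2 / y * C) = 2 * A * C / y by ring, div_le_iff₀ y0]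
      linarith
    rw [e] at b
    simp only [Uz_succ]
    have y0 : 0 ≤ 2 / y := by have : 0 < y := by linarith
                              positivity
    nlinarith [mul_le_mul_of_nonneg_left b A0.le,
      mul_le_mul_of_nonneg_left (mul_le_mul_of_nonneg_left c y0) A0.le]

lemma carre (h0 : 0 < q) (h1 : q < 1) {N k : ℕ} (hk : k < N) (φ : (ℕ → Bool) → ℝ) (σ : ℕ → Bool) :
    q * (cF k σ * (φ σ - φ (update σ k false)) ^ 2) ≤
      LF q N (φ * φ) σ - 2 * (φ σ * LF q N φ σ) := by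
  have hp : 0 < 1 - q := by linarith
  have a : ∀ j, q * (cF j σ * (φ σ - φ (update σ j false)) ^ 2) ≤
      cF j σ * (E q j (φ * φ) σ - φ σ * φ σ) - 2 * (φ σ * (cF j σ * (E q j φ σ - φ σ))) := fun j => by
    simp only [E_apply, Pi.mul_apply]
    nlinarith [mul_nonneg hp.le (mul_nonneg (cF_nonneg j σ) (sq_nonneg (φ σ - φ (update σ j true))))]
  have b := (single_le_sum (f := fun j => q * (cF j σ * (φ σ - φ (update σ j false)) ^ 2))
    (fun j _ => mul_nonneg h0.le (mul_nonneg (cF_nonneg j σ) (sq_nonneg _)))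
    (mem_range.2 hk)).trans (sum_le_sum fun j _ => a j)
  rw [sum_sub_distrib, ← mul_sum, ← mul_sum] at b
  simp only [LF, Pi.add_apply, Finset.sum_apply, Pi.mul_apply, Pi.sub_apply, Pi.smul_apply,
    smul_eq_mul]
  nlinarith [mul_nonneg h0.le (sq_nonneg (φ (cns false σ) - φ σ)),
    mul_nonneg hp.le (mul_nonneg (zr_nonneg 0 σ) (sq_nonneg (φ (shf σ) - φ σ)))]

section Two

variable (h0 : 0 < q) (h1 : q < 1) (S : Stat q ν G) (S1 : Stat q ν1 G1)
  (hle : ∀ n σ, G1 n σ ≤ 2 * G n σ)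

include h0 h1 S S1 hle

omit hle in
lemma rel_rep {n : ℕ} {F : (ℕ → Bool) → ℝ} (hF : Dep n F) : ν (G1 n / G n * F) = ν1 F := by
  have d : Dep n (G1 n / G n) := fun σ σ' hs => by
    simp only [Pi.div_apply, S.dep n σ σ' hs, S1.dep n σ σ' hs]
  rw [S.rep n _ (d.mul hF), S1.rep n _ hF]
  congr 1
  ext σ
  have := (S.pos h0 h1 n σ).ne'
  simp only [Pi.mul_apply, Pi.div_apply]
  field_simp

omit h0 h1 hle in
lemma rel_dep (n : ℕ) : Dep n (G1 n / G n) := fun σ σ' hs => by
  simp only [Pi.div_apply, S.dep n σ σ' hs, S1.dep n σ σ' hs]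

lemma rel_bd (n : ℕ) (σ : ℕ → Bool) : 0 ≤ (G1 n / G n) σ ∧ (G1 n / G n) σ ≤ 2 :=
  ⟨div_nonneg (S1.nn n σ) (S.nn n σ), (div_le_iff₀ (S.pos h0 h1 n σ)).2 (hle n σ)⟩

omit hle in
lemma rel_incr (n : ℕ) :
    ν ((G1 (n + 1) / G (n + 1) - G1 n / G n) * (G1 (n + 1) / G (n + 1) - G1 n / G n)) =
      ν (G1 (n + 1) / G (n + 1) * (G1 (n + 1) / G (n + 1))) - ν (G1 n / G n * (G1 n / G n)) := by
  have a := rel_rep h0 h1 S S1 ((rel_dep S S1 n).mono (Nat.le_succ n))
  have b := rel_rep h0 h1 S S1 (rel_dep S S1 n)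
  rw [sub_mul, mul_sub, mul_sub, mul_comm (G1 n / G n) (G1 (n + 1) / G (n + 1)), map_sub, map_sub,
    map_sub, a, b]
  ring

omit hle in
lemma rel_mono : Monotone fun n => ν (G1 n / G n * (G1 n / G n)) :=
  monotone_nat_of_le_succ fun n => by
    have d := (rel_dep S S1 (n + 1)).sub ((rel_dep S S1 n).mono (Nat.le_succ n))
    have := S.nonneg h0 h1 (d.mul d) fun σ => mul_self_nonneg _
    rw [rel_incr h0 h1 S S1] at this
    linarith

lemma rel_gamma {η : ℝ} (e0 : 0 < η) : ∀ᶠ l in atTop, ∀ k ≤ l,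
    ν (cF k * fun σ => ((G1 (l + 1) / G (l + 1)) σ -
      (G1 (l + 1) / G (l + 1)) (update σ k false)) ^ 2) ≤ η := by
  have hp : 0 < 1 - q := by linarith
  have t := tendsto_atTop_ciSup (rel_mono h0 h1 S S1) ⟨4, by
    rintro _ ⟨n, rfl⟩
    exact S.le_const h0 h1 ((rel_dep S S1 n).mul (rel_dep S S1 n)) fun σ => by
      have := rel_bd h0 h1 S S1 hle n σ
      rw [Pi.mul_apply]; nlinarith⟩
  have t2 := ((tendsto_add_atTop_iff_nat
    (f := fun n => ν (G1 n / G n * (G1 n / G n))) (1 + 1)).2 t).sub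
    ((tendsto_add_atTop_iff_nat (f := fun n => ν (G1 n / G n * (G1 n / G n))) 1).2 t)
  rw [sub_self] at t2
  set s := q * η / 32 with hs
  have s0 : 0 < s := by positivity
  filter_upwards [t2.eventually (gt_mem_nhds (show 0 < s * (q * η / 2) by positivity))]
    with l hl k hk
  set φ := G1 (l + 1) / G (l + 1) with hφ
  set f := G1 (l + 1 + 1) / G (l + 1 + 1) with hf
  have dφ : Dep (l + 1) φ := rel_dep S S1 _
  have dφ2 : Dep (l + 1 + 1) φ := dφ.mono (by omega)
  have df : Dep (l + 1 + 1) f := rel_dep S S1 _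
  have bφ : ∀ σ, 0 ≤ φ σ ∧ φ σ ≤ 2 := rel_bd h0 h1 S S1 hle _
  have inc : ν ((f - φ) * (f - φ)) < s * (q * η / 2) := (rel_incr h0 h1 S S1 (l + 1)).trans_lt hl
  set A : (ℕ → Bool) → ℝ := ∑ j ∈ range l, cF j * (E q j φ - φ) +
    q • ((fun σ => φ (cns false σ)) - φ) - (1 - q) • (zr 0 * φ) with hA
  set B : (ℕ → Bool) → ℝ := cF l * (E q l φ - φ) + (1 - q) • (zr 0 * fun σ => φ (shf σ)) with hB
  have dA : Dep (l + 1) A := ((Dep_sum fun j hj =>
    ((Dep_cF j).mono (by have := mem_range.1 hj; omega)).mul ((dφ.E q j).sub dφ)).add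
    ((((dφ.cns false).mono (by omega)).sub dφ).smul q)).sub (((Dep_zr (by omega)).mul dφ).smul _)
  have dB : Dep (l + 1 + 1) B := ((Dep_cF l).mul ((dφ2.E q l).sub dφ2)).add
    (((Dep_zr (by omega)).mul dφ.shf).smul _)
  have eL : LF q (l + 1) φ = A + B := by
    rw [LF, sum_range_succ, hA, hB, mul_sub (zr 0), smul_sub (1 - q)]; abel
  have bB : ∀ σ, |B σ| ≤ 4 := fun σ => by
    have a0 := bφ σ
    have a1 := bφ (update σ l false)
    have a2 := bφ (update σ l true)
    have a3 := bφ (shf σ)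
    have c0 := cF_nonneg l σ
    have c1 := cF_le_one l σ
    have z0 := zr_nonneg 0 σ
    have z1 := zr_le_one 0 σ
    have u0 : 0 ≤ E q l φ σ := by rw [E_apply]; nlinarith
    have u1 : E q l φ σ ≤ 2 := by rw [E_apply]; nlinarith
    have v0 := mul_nonneg z0 a3.1
    have v1 : zr 0 σ * φ (shf σ) ≤ 2 := by nlinarith
    simp only [hB, Pi.add_apply, Pi.mul_apply, Pi.sub_apply, Pi.smul_apply, smul_eq_mul]
    rw [abs_le]; constructor <;> nlinarith
  have e1 : ν (φ * LF q (l + 1) φ) = -ν ((f - φ) * B) := by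
    have u1 := rel_rep h0 h1 S S1 (Dep_LF (q := q) dφ)
    have u2 := rel_rep h0 h1 S S1 dA
    have u3 := rel_rep h0 h1 S S1 (dA.mono (Nat.le_succ _))
    rw [S1.inv _ _ dφ, ← hf, eL, mul_add, map_add] at u1
    rw [← hφ] at u2
    rw [← hf] at u3
    rw [eL, mul_add, map_add, sub_mul, map_sub]
    linarith
  have dh : Dep (l + 1 + 1) (cF k * fun σ => (φ σ - φ (update σ k false)) ^ 2) :=
    ((Dep_cF k).mono (by omega)).mul ((dφ2.sub (dφ2.update k false)).comp (· ^ 2))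
  have e2 := S.mono h0 h1 (dh.smul q) ((Dep_LF (dφ.mul dφ)).sub
    ((dφ2.mul (Dep_LF (q := q) dφ)).smul 2)) fun σ => carre h0 h1 (show k < l + 1 by omega) φ σ
  rw [map_sub, lin_smul, lin_smul, S.inv _ _ (dφ.mul dφ), e1] at e2
  have e3 := S.mono h0 h1 (((df.sub dφ2).mul dB).smul (2 * s))
    (((df.sub dφ2).mul (df.sub dφ2)).add ((Dep_one _).smul (16 * s ^ 2))) fun σ => by
      have b2 : B σ ^ 2 ≤ 16 := by
        have := abs_le.1 (bB σ); nlinarith
      simp only [Pi.add_apply, Pi.mul_apply, Pi.smul_apply, smul_eq_mul, Pi.one_apply]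
      nlinarith [sq_nonneg ((f - φ) σ - s * B σ), mul_le_mul_of_nonneg_left b2 (sq_nonneg s)]
  rw [map_add, lin_smul, lin_smul, S.one] at e3
  have e4 : 2 * ν ((f - φ) * B) ≤ q * η := le_of_mul_le_mul_left (by nlinarith) s0
  exact le_of_mul_le_mul_left (by linarith) h0

lemma rel_near (d : ℕ) : ∀ η > 0, ∀ᶠ l in atTop,
    ν (fun σ => ((G1 (l + 1) / G (l + 1)) σ - (G1 (l + 1) / G (l + 1)) (Uz d σ)) ^ 2) ≤ η := by
  induction d with
  | zero =>
    intro η e0
    refine Eventually.of_forall fun l => ?_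
    simp only [Uz_zero, sub_self]
    exact S.le_const h0 h1 (n := 0) (fun _ _ _ => rfl) fun _ => by simpa using e0.le
  | succ d ih =>
    intro η e0
    obtain ⟨A, A0, H⟩ := S.ac h0 h1 d (η / 32) (by positivity)
    filter_upwards [ih (η / 4) (by positivity), eventually_ge_atTop d,
      rel_gamma h0 h1 S S1 hle (show 0 < η / (8 * A) by positivity)] with l a hl b
    set φ := G1 (l + 1) / G (l + 1) with hφ
    have dφ : Dep (l + 1) φ := rel_dep S S1 _
    have bφ : ∀ σ, 0 ≤ φ σ ∧ φ σ ≤ 2 := rel_bd h0 h1 S S1 hle _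
    set h : (ℕ → Bool) → ℝ := fun σ => (φ σ - φ (update σ d false)) ^ 2 with hh
    have dh : Dep (l + 1) h := (dφ.sub (dφ.update d false)).comp (· ^ 2)
    have c := H l hl ((1 / 4 : ℝ) • h) (dh.smul _)
      (fun σ => mul_nonneg (by norm_num) (sq_nonneg _)) fun σ => by
        have := bφ σ
        have := bφ (update σ d false)
        simp only [hh, Pi.smul_apply, smul_eq_mul]
        nlinarith
    have c1 : ν (Zz d * h) ≤ ν (cF d * h) := S.mono h0 h1 (n := l + 1 + 1)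
      (((Dep_Zz d).mono (by omega)).mul (dh.mono (by omega)))
      (((Dep_cF d).mono (by omega)).mul (dh.mono (by omega)))
      fun σ => mul_le_mul_of_nonneg_right (Zz_le _ _) (sq_nonneg _)
    have c2 := c1.trans (b d hl)
    rw [le_div_iff₀ (by positivity)] at c2
    rw [mul_smul_comm, lin_smul] at c
    have c3 := S.mono h0 h1 ((dφ.sub (Dep_Uz dφ (d + 1))).comp (· ^ 2))
      ((((dφ.sub (Dep_Uz dφ d)).comp (· ^ 2)).smul 2).add
        ((Dep_Uz (dh.smul (1 / 4)) d).smul 8)) fun σ => by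
      simp only [hh, Pi.add_apply, Pi.sub_apply, Pi.smul_apply, smul_eq_mul, Uz_succ]
      nlinarith [sq_nonneg (φ σ - 2 * φ (Uz d σ) + φ (update (Uz d σ) d false))]
    rw [map_add, lin_smul, lin_smul] at c3
    simp only [Pi.sub_apply] at c3
    linarith

lemma rel_eq {n : ℕ} {F : (ℕ → Bool) → ℝ} (hF : Dep n F) : ν1 F = ν F := by
  have key : ν (G1 n / G n * (G1 n / G n)) ≤ 1 := le_of_forall_pos_le_add fun δ d0 => by
    obtain ⟨d, hd⟩ := S.far h0 h1 (show 0 < δ / 4 by positivity)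
    obtain ⟨d1, hd1⟩ := S1.far h0 h1 (show 0 < δ / 4 by positivity)
    obtain ⟨l, a, hl⟩ := ((rel_near h0 h1 S S1 hle (d + d1) (δ * δ / 4) (by positivity)).and
      (eventually_ge_atTop (d + d1 + n))).exists
    refine (rel_mono h0 h1 S S1 (show n ≤ l + 1 by omega)).trans ?_
    set φ := G1 (l + 1) / G (l + 1) with hφ
    have dφ : Dep (l + 1) φ := rel_dep S S1 _
    have bφ : ∀ σ, 0 ≤ φ σ ∧ φ σ ≤ 2 := rel_bd h0 h1 S S1 hle _
    have dF := Dep_Uz dφ (d + d1)
    have bF : ∀ σ, |φ (Uz (d + d1) σ)| ≤ 2 := fun σ => by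
      rw [abs_of_nonneg (bφ _).1]; exact (bφ _).2
    have u := abs_le.1 (hd _ (by omega) _ (by omega) _ dF (fun j hj => Ind_Uz φ hj) bF)
    have u1 := abs_le.1 (hd1 _ (by omega) _ (by omega) _ dF (fun j hj => Ind_Uz φ hj) bF)
    have v := rel_rep h0 h1 S S1 dF
    have v1 := rel_rep h0 h1 S S1 (Dep_one (l + 1))
    rw [← hφ] at v v1
    rw [mul_one, S1.one] at v1
    have w := S.mono h0 h1 ((((dφ.mul dφ).sub dφ).sub ((dφ.mul dF).sub dF)).smul δ)
      (((dφ.sub dF).comp (· ^ 2)).add ((Dep_one _).smul (δ * δ / 4))) fun σ => by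
      have := bφ σ
      have b : (φ σ - 1) ^ 2 ≤ 1 := by nlinarith
      simp only [Pi.add_apply, Pi.sub_apply, Pi.mul_apply, Pi.smul_apply, smul_eq_mul, Pi.one_apply]
      nlinarith [sq_nonneg (φ σ - φ (Uz (d + d1) σ) - δ / 2 * (φ σ - 1)),
        mul_le_mul_of_nonneg_left b (mul_self_nonneg δ)]
    rw [lin_smul, map_sub, map_sub, map_sub, map_add, lin_smul, S.one, v, v1] at w
    simp only [Pi.sub_apply] at w
    refine le_of_mul_le_mul_left ?_ d0
    nlinarith [mul_le_mul_of_nonneg_left u.1 d0.le, mul_le_mul_of_nonneg_left u1.2 d0.le]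
  have d := (rel_dep S S1 n).sub (Dep_one n)
  have v1 := rel_rep h0 h1 S S1 (Dep_one n)
  rw [mul_one, S1.one] at v1
  have z : ν ((G1 n / G n - 1) * (G1 n / G n - 1)) ≤ 0 := by
    rw [sub_mul, mul_sub, mul_one, one_mul, map_sub, map_sub, map_sub, v1, S.one]; linarith
  have e : G1 n / G n = 1 := by
    ext σ
    rw [S.rep n _ (d.mul d)] at z
    have a := (gL_upper h0 h1 ((S.dep n).mul (d.mul d))
      (fun τ => mul_nonneg (S.nn n τ) (mul_self_nonneg _)) σ).trans z
    rw [Pi.mul_apply, ← mul_assoc] at a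
    have b := le_of_mul_le_mul_left (a.trans_eq (mul_zero _).symm)
      (mul_pos (pow_pos (ps_pos h0 h1) n) (S.pos h0 h1 n σ))
    exact sub_eq_zero.1 (mul_self_eq_zero.1 (le_antisymm b (mul_self_nonneg _)))
  rw [← rel_rep h0 h1 S S1 hF, e, one_mul]

end Two

theorem Stat.unique (h0 : 0 < q) (h1 : q < 1) (S : Stat q ν G) (S1 : Stat q ν1 G1) {n : ℕ}
    {F : (ℕ → Bool) → ℝ} (hF : Dep n F) : ν1 F = ν F := by
  have M : Stat q ((1 / 2 : ℝ) • (ν + ν1)) fun n => (1 / 2 : ℝ) • (G n + G1 n) :=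
    { dep := fun n => ((S.dep n).add (S1.dep n)).smul _
      nn := fun n σ => mul_nonneg (by norm_num) (add_nonneg (S.nn n σ) (S1.nn n σ))
      rep := fun n F hF => by
        rw [smul_mul_assoc, lin_smul, add_mul, map_add, ← S.rep n F hF, ← S1.rep n F hF]; rfl
      one := by
        rw [LinearMap.smul_apply, LinearMap.add_apply, S.one, S1.one]; norm_num
      inv := fun N φ hφ => by
        rw [LinearMap.smul_apply, LinearMap.add_apply, S.inv N φ hφ, S1.inv N φ hφ]; simp }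
  have := rel_eq h0 h1 M S1 (fun n σ => by
    have : 0 ≤ G n σ := S.nn n σ
    simp only [Pi.smul_apply, Pi.add_apply, smul_eq_mul]
    linarith) hF
  rw [LinearMap.smul_apply, LinearMap.add_apply, smul_eq_mul] at this
  linarith

end Pool.Agent.FA1f.Fr
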